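import Pool.Agent.Lib_helper96.GNib.G5

/-!
# General weighted nibble: final form

`V` vertices, `E` cells, `inc e` = vertices of `e` (at most `k`), `w` a nonnegative weight with total
weight at most `1 + n^(-1/10)` at every vertex, at least `1 - n^(-1/10)` at the vertices of `R`, and
total weight at most `n^(1/20) / n` at every pair of distinct vertices.  Then there are pairwise
disjoint cells of positive weight leaving at most `n^(1-κ)` vertices of each test set uncovered.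
-/

set_option autoImplicit false
set_option linter.unusedSectionVars false

namespace Pool.Agent.GNib

open Finset Pool.Agent.Des

theorem gnibble (k C : ℕ) (hk : 1 ≤ k) : ∃ κ : ℝ, 0 < κ ∧ κ ≤ 1 / 2 ∧ ∃ n₀ : ℕ,
    ∀ n : ℕ, n₀ ≤ n →
    ∀ (V E : Type) [Fintype V] [DecidableEq V] [Fintype E] [DecidableEq E]
    (inc : E → Finset V) (w : E → ℝ) (R : Finset V) (𝒮 : Finset (Finset V)),
    (Fintype.card V : ℝ) ≤ (n : ℝ) ^ C → (𝒮.card : ℝ) ≤ (n : ℝ) ^ C →
    (∀ S ∈ 𝒮, S ⊆ R ∧ (S.card : ℝ) ≤ n) →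
    (∀ e, 0 ≤ w e) → (∀ e, w e ≠ 0 → (inc e).Nonempty ∧ (inc e).card ≤ k) →
    (∀ v, ∑ e ∈ Finset.univ.filter (fun e => v ∈ inc e), w e ≤ 1 + (n : ℝ) ^ (-(1 : ℝ) / 10)) →
    (∀ v ∈ R, 1 - (n : ℝ) ^ (-(1 : ℝ) / 10) ≤
      ∑ e ∈ Finset.univ.filter (fun e => v ∈ inc e), w e) →
    (∀ u v, u ≠ v → ∑ e ∈ Finset.univ.filter (fun e => u ∈ inc e ∧ v ∈ inc e), w e ≤
      (n : ℝ) ^ ((1 : ℝ) / 20) / n) →
    ∃ D : Finset E, (∀ f ∈ D, w f ≠ 0) ∧
      (∀ f ∈ D, ∀ f' ∈ D, f ≠ f' → Disjoint (inc f) (inc f')) ∧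
      ∀ S ∈ 𝒮, ((S \ D.biUnion inc).card : ℝ) ≤ (n : ℝ) ^ (1 - κ) := by
  obtain ⟨κ, hκ0, hκ1, n₀, hn₀⟩ := gnib_core k C hk
  refine ⟨κ, hκ0, hκ1, n₀, ?_⟩
  intro n hn V E _ _ _ _ inc w R 𝒮 hV h𝒮 hS hw0 hsz hup hlow hpair
  classical
  -- dummy singletons for the optional vertices
  obtain ⟨W, hW⟩ : ∃ W : V → ℝ, ∀ v, W v =
      ∑ e ∈ Finset.univ.filter (fun e => v ∈ inc e), w e := ⟨_, fun _ => rfl⟩
  obtain ⟨d, hd⟩ : ∃ d : V → ℝ, ∀ v, d v = if v ∈ R then 0 else max 0 (1 - W v) :=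
    ⟨_, fun _ => rfl⟩
  have hd0 : ∀ v, 0 ≤ d v := by
    intro v; rw [hd]; split_ifs
    · exact le_rfl
    · exact le_max_left _ _
  obtain ⟨inc', hi1, hi2⟩ : ∃ inc' : E ⊕ V → Finset V, (∀ e, inc' (Sum.inl e) = inc e) ∧
      (∀ v, inc' (Sum.inr v) = {v}) := ⟨Sum.elim inc (fun v => {v}), fun _ => rfl, fun _ => rfl⟩
  obtain ⟨w', hw1, hw2⟩ : ∃ w' : E ⊕ V → ℝ, (∀ e, w' (Sum.inl e) = w e) ∧
      (∀ v, w' (Sum.inr v) = d v) := ⟨Sum.elim w d, fun _ => rfl, fun _ => rfl⟩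
  have hg1 : ∀ v, gw1 inc' w' v = W v + d v := by
    intro v
    unfold gw1
    rw [hW, Finset.sum_filter, Fintype.sum_sum_type, ← Finset.sum_filter]
    congr 1
    · simp_rw [hi1, hw1]
    · simp_rw [hi2, hw2, Finset.mem_singleton]
      rw [Finset.sum_ite_eq]
      simp
  have hg2 : ∀ u v, u ≠ v → gw2 inc' w' u v =
      ∑ e ∈ Finset.univ.filter (fun e => u ∈ inc e ∧ v ∈ inc e), w e := by
    intro u v huv
    unfold gw2
    rw [Finset.sum_filter, Fintype.sum_sum_type, ← Finset.sum_filter]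
    have h1 : ∑ x : V, (if u ∈ inc' (Sum.inr x) ∧ v ∈ inc' (Sum.inr x) then w' (Sum.inr x)
        else 0) = 0 := by
      refine Finset.sum_eq_zero fun x _ => ?_
      rw [if_neg]
      rw [hi2, Finset.mem_singleton, Finset.mem_singleton]
      rintro ⟨h1, h2⟩
      exact huv (h1.trans h2.symm)
    rw [h1, add_zero]
    simp_rw [hi1, hw1]
  have hgnw : GNW inc' k n Finset.univ w' ((n : ℝ) ^ (-(1 : ℝ) / 10))
      ((n : ℝ) ^ ((1 : ℝ) / 20)) := by
    refine ⟨?_, ?_, ?_, ?_⟩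
    · rintro (e | v)
      · rw [hw1]; exact hw0 e
      · rw [hw2]; exact hd0 v
    · rintro (e | v) h
      · rw [hw1] at h
        rw [hi1]
        exact ⟨(hsz e h).1, (hsz e h).2, Finset.subset_univ _⟩
      · rw [hi2]
        exact ⟨Finset.singleton_nonempty _, by rw [Finset.card_singleton]; exact hk,
          Finset.subset_univ _⟩
    · intro v _
      rw [hg1]
      have hδ : 0 ≤ (n : ℝ) ^ (-(1 : ℝ) / 10) := by positivity
      have h1 := hup v
      rw [← hW] at h1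
      rw [abs_le]
      by_cases hv : v ∈ R
      · have h2 := hlow v hv
        rw [← hW] at h2
        rw [hd, if_pos hv]
        constructor <;> linarith
      · rw [hd, if_neg hv]
        rcases le_total 0 (1 - W v) with h | h
        · rw [max_eq_right h]
          constructor <;> linarith
        · rw [max_eq_left h]
          constructor <;> linarith
    · intro u v huv
      rw [hg2 u v huv]
      exact hpair u v huv
  obtain ⟨D', d1, d2, d3⟩ := hn₀ n hn V (E ⊕ V) inc' 𝒮 hV h𝒮 (fun S h => (hS S h).2)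
    Finset.univ w' hgnw
  refine ⟨Finset.univ.filter (fun e => Sum.inl e ∈ D'), ?_, ?_, ?_⟩
  · intro f hf
    have := d1 _ (Finset.mem_filter.mp hf).2
    rwa [hw1] at this
  · intro f hf f' hf' hne
    have := d2 _ (Finset.mem_filter.mp hf).2 _ (Finset.mem_filter.mp hf').2
      (fun h => hne (Sum.inl_injective h))
    rwa [hi1, hi1] at this
  · intro S hS'
    refine le_trans ?_ (d3 S hS')
    have hsub : S \ (Finset.univ.filter (fun e => Sum.inl e ∈ D')).biUnion inc ⊆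
        (Finset.univ ∩ S) \ D'.biUnion inc' := by
      intro v hv
      rw [Finset.mem_sdiff, Finset.mem_biUnion] at hv
      rw [Finset.mem_sdiff, Finset.mem_inter, Finset.mem_biUnion]
      refine ⟨⟨Finset.mem_univ _, hv.1⟩, ?_⟩
      rintro ⟨f, hf, hvf⟩
      rcases f with e | u
      · rw [hi1] at hvf
        exact hv.2 ⟨e, Finset.mem_filter.mpr ⟨Finset.mem_univ _, hf⟩, hvf⟩
      · rw [hi2, Finset.mem_singleton] at hvf
        have h1 := d1 _ hf
        rw [hw2, ← hvf, hd, if_pos ((hS S hS').1 hv.1)] at h1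
        exact h1 rfl
    exact_mod_cast Finset.card_le_card hsub

end Pool.Agent.GNib
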