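import Pool.Agent.Lib_helper96.GNib.GDef

/-!
# General weighted nibble: expected surviving weight at a vertex
-/

set_option autoImplicit false
set_option linter.unusedSectionVars false

namespace Pool.Agent.GNib

open Finset Pool.Agent.Des

section G1

variable {V E : Type} [Fintype V] [DecidableEq V] [Fintype E] [DecidableEq E]

/-- cells avoiding `v` that hit `e` off `v` -/
noncomputable def gH (inc : E → Finset V) (w : E → ℝ) (v : V) (e : E) : Finset E :=
  (gsp w).filter (fun f => v ∉ inc f ∧ ¬ Disjoint (inc f) ((inc e).erase v))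

theorem g1_fe (inc : E → Finset V) (w c : E → ℝ) (v : V) (ω : Finset E) (hω : ω ⊆ gsp w) :
    gfe inc w c v ω = ∑ e ∈ Finset.univ.filter (fun e => v ∈ inc e),
      c e * w e * (if ∅ ⊆ ω ∧ Disjoint (gH inc w v e) ω then (1 : ℝ) else 0) := by
  classical
  unfold gfe
  refine Finset.sum_congr rfl fun e _ => ?_
  congr 1
  have h : (∀ f ∈ ω, v ∉ inc f → Disjoint (inc f) ((inc e).erase v)) ↔
      (∅ ⊆ ω ∧ Disjoint (gH inc w v e) ω) := by
    constructor
    · intro h
      refine ⟨Finset.empty_subset _, ?_⟩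
      rw [Finset.disjoint_left]
      intro f hf hfω
      simp only [gH, Finset.mem_filter] at hf
      exact hf.2.2 (h f hfω hf.2.1)
    · rintro ⟨-, h⟩ f hf hv
      by_contra hd
      rw [Finset.disjoint_right] at h
      exact h hf (by simp only [gH, Finset.mem_filter]; exact ⟨hω hf, hv, hd⟩)
  by_cases h1 : ∅ ⊆ ω ∧ Disjoint (gH inc w v e) ω
  · rw [if_pos h1, if_pos (h.mpr h1)]
  · rw [if_neg h1, if_neg (fun h2 => h1 (h.mp h2))]

theorem g1_mean (inc : E → Finset V) (w c : E → ℝ) (v : V) (p : E → ℝ) :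
    bE (gsp w) p (gfe inc w c v) = ∑ e ∈ Finset.univ.filter (fun e => v ∈ inc e),
      c e * w e * ∏ f ∈ gH inc w v e, (1 - p f) := by
  classical
  rw [bE_congr (fun ω hω => g1_fe inc w c v ω hω), bE_sum]
  refine Finset.sum_congr rfl fun e _ => ?_
  rw [bE_mul_left, bE_subset_disj _ _ ∅ (gH inc w v e) (Finset.empty_subset _)
    (Finset.filter_subset _ _) (Finset.disjoint_empty_left _)]
  simp

variable {inc : E → Finset V} {k : ℕ} {n : ℝ} {A : Finset V} {w : E → ℝ} {δ B : ℝ}

/-- total weight of the hitting cells: upper bound -/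
theorem g1_up (hw : GNW inc k n A w δ B) (hδ : 0 ≤ δ) (v : V) (e : E) :
    ∑ f ∈ gH inc w v e, w f ≤ (((inc e).erase v).card : ℝ) * (1 + δ) := by
  classical
  have h1 : ∑ f ∈ gH inc w v e, w f ≤ ∑ g ∈ (inc e).erase v, gw1 inc w g := by
    have h2 : ∑ g ∈ (inc e).erase v, gw1 inc w g =
        ∑ f ∈ (Finset.univ : Finset E),
          ∑ g ∈ ((inc e).erase v).filter (fun g => g ∈ inc f), w f := by
      unfold gw1
      simp_rw [Finset.sum_filter]
      exact Finset.sum_comm
    rw [h2]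
    refine le_trans ?_ (Finset.sum_le_sum_of_subset_of_nonneg (Finset.subset_univ (gH inc w v e))
      (fun f _ _ => Finset.sum_nonneg fun _ _ => hw.nonneg f))
    refine Finset.sum_le_sum fun f hf => ?_
    simp only [gH, Finset.mem_filter] at hf
    obtain ⟨g, hg, hg'⟩ := Finset.not_disjoint_iff.mp hf.2.2
    have hmem : g ∈ ((inc e).erase v).filter (fun g => g ∈ inc f) :=
      Finset.mem_filter.mpr ⟨hg', hg⟩
    exact Finset.single_le_sum (f := fun _ => w f) (fun _ _ => hw.nonneg f) hmem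
  refine h1.trans ?_
  calc ∑ g ∈ (inc e).erase v, gw1 inc w g
      ≤ ∑ g ∈ (inc e).erase v, (1 + δ) := Finset.sum_le_sum fun g _ => gw1_le hw hδ g
    _ = _ := by rw [Finset.sum_const, nsmul_eq_mul]

/-- total weight of the hitting cells: lower bound -/
theorem g1_low (hw : GNW inc k n A w δ B) (v : V) (e : E) (he : w e ≠ 0) (m : ℝ)
    (hm : (((inc e).erase v).card : ℝ) = m) :
    m * (1 - δ) - m ^ 2 * (B / n) ≤ ∑ f ∈ gH inc w v e, w f := by
  classical
  set G := (inc e).erase v with hG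
  have hGc : ∀ g ∈ G, g ≠ v ∧ g ∈ A := by
    intro g hg
    rw [hG, Finset.mem_erase] at hg
    exact ⟨hg.1, (hw.size e he).2.2 hg.2⟩
  set C := (gsp w).filter (fun f => v ∉ inc f) with hC
  -- pointwise inequality
  have hpt : ∀ f ∈ C, (((G.filter (fun g => g ∈ inc f)).card : ℝ) -
      (((G.filter (fun g => g ∈ inc f)).offDiag).card : ℝ)) * w f ≤
      if f ∈ gH inc w v e then w f else 0 := by
    intro f hf
    have hoff : (((G.filter (fun g => g ∈ inc f)).offDiag).card : ℝ) =
        ((G.filter (fun g => g ∈ inc f)).card : ℝ) * ((G.filter (fun g => g ∈ inc f)).card : ℝ) -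
          ((G.filter (fun g => g ∈ inc f)).card : ℝ) := by
      rw [Finset.offDiag_card, Nat.cast_sub (Nat.le_mul_self _)]
      push_cast; ring
    rw [hoff]
    split_ifs with h
    · have h0 := hw.nonneg f
      nlinarith [sq_nonneg (((G.filter (fun g => g ∈ inc f)).card : ℝ) - 1)]
    · have h0 : G.filter (fun g => g ∈ inc f) = ∅ := by
        rw [Finset.filter_eq_empty_iff]
        intro g hg hgK
        apply h
        simp only [gH, Finset.mem_filter]
        rw [hC, Finset.mem_filter] at hf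
        refine ⟨hf.1, hf.2, ?_⟩
        rw [Finset.not_disjoint_iff]
        exact ⟨g, hgK, hg⟩
      rw [h0]; simp
  have hsum : ∑ f ∈ gH inc w v e, w f =
      ∑ f ∈ C, if f ∈ gH inc w v e then w f else 0 := by
    rw [← Finset.sum_filter]
    refine Finset.sum_congr ?_ fun _ _ => rfl
    ext f
    simp only [hC, gH, Finset.mem_filter]
    tauto
  rw [hsum]
  refine le_trans ?_ (Finset.sum_le_sum hpt)
  have h1 : ∑ f ∈ C, (((G.filter (fun g => g ∈ inc f)).card : ℝ) -
      (((G.filter (fun g => g ∈ inc f)).offDiag).card : ℝ)) * w f =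
      ∑ g ∈ G, ∑ f ∈ C.filter (fun f => g ∈ inc f), w f -
        ∑ z ∈ G.offDiag, ∑ f ∈ C.filter (fun f => z.1 ∈ inc f ∧ z.2 ∈ inc f), w f := by
    simp_rw [sub_mul]
    rw [Finset.sum_sub_distrib]
    congr 1
    · simp_rw [Finset.sum_filter]
      rw [Finset.sum_comm]
      refine Finset.sum_congr rfl fun f _ => ?_
      rw [← Finset.sum_filter, Finset.sum_const, nsmul_eq_mul]
    · simp_rw [Finset.sum_filter]
      rw [Finset.sum_comm]
      refine Finset.sum_congr rfl fun f _ => ?_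
      rw [← Finset.sum_filter, Finset.sum_const, nsmul_eq_mul]
      congr 3
      ext z
      simp only [Finset.mem_offDiag, Finset.mem_filter]
      tauto
  rw [h1]
  have h2 : ∀ g ∈ G, (1 - δ) - B / n ≤ ∑ f ∈ C.filter (fun f => g ∈ inc f), w f := by
    intro g hg
    have h3 : gw1 inc w g = ∑ f ∈ C.filter (fun f => g ∈ inc f), w f + gw2 inc w v g := by
      rw [gw1_sp inc w g, gw2_sp inc w v g, hC, Finset.filter_filter,
        ← Finset.sum_filter_add_sum_filter_not ((gsp w).filter (fun f => g ∈ inc f))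
          (fun f => v ∉ inc f)]
      simp only [Finset.filter_filter]
      congr 1
      · refine Finset.sum_congr ?_ fun _ _ => rfl
        ext f; simp only [Finset.mem_filter]; tauto
      · refine Finset.sum_congr ?_ fun _ _ => rfl
        ext f
        simp only [Finset.mem_filter, not_not]; tauto
    have h4 := hw.pair v g (hGc g hg).1.symm
    have h5 := (gw1_alive hw (hGc g hg).2).1
    linarith
  have h6 : ∀ z ∈ G.offDiag, ∑ f ∈ C.filter (fun f => z.1 ∈ inc f ∧ z.2 ∈ inc f), w f ≤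
      B / n := by
    intro z hz
    rw [Finset.mem_offDiag] at hz
    refine le_trans ?_ (hw.pair z.1 z.2 hz.2.2)
    rw [gw2_sp]
    refine Finset.sum_le_sum_of_subset_of_nonneg ?_ (fun f _ _ => hw.nonneg f)
    intro f hf
    simp only [hC, Finset.mem_filter] at hf ⊢
    exact ⟨hf.1.1, hf.2⟩
  have h7 : (G.card : ℝ) * ((1 - δ) - B / n) ≤
      ∑ g ∈ G, ∑ f ∈ C.filter (fun f => g ∈ inc f), w f := by
    have := Finset.sum_le_sum h2
    rwa [Finset.sum_const, nsmul_eq_mul] at this
  have h8 : ∑ z ∈ G.offDiag, ∑ f ∈ C.filter (fun f => z.1 ∈ inc f ∧ z.2 ∈ inc f), w f ≤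
      (m * m - m) * (B / n) := by
    have := Finset.sum_le_sum h6
    rw [Finset.sum_const, nsmul_eq_mul, Finset.offDiag_card, Nat.cast_sub (Nat.le_mul_self _)] at this
    push_cast at this
    rwa [hm] at this
  rw [hm] at h7
  nlinarith

end G1

theorem gnib_mean {V E : Type} [Fintype V] [DecidableEq V] [Fintype E] [DecidableEq E]
    (inc : E → Finset V) (k : ℕ) (n : ℝ) (A : Finset V) (w : E → ℝ) (δ B ε : ℝ)
    (hk : 1 ≤ k) (hn : 1 ≤ n) (hw : GNW inc k n A w δ B)
    (hδ0 : 0 ≤ δ) (hδ : δ ≤ 1 / 2) (hB : 0 ≤ B) (hε : 0 < ε) (hεk : ε * k ≤ 1 / 4)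
    (hBn : (k : ℝ) ^ 2 * B / n ≤ ε) (v : V) (hv : v ∈ A) :
    |bE (gsp w) (fun e => ε * w e) (gfe inc w (gc inc ε) v) - 1| ≤
      δ * (1 + 3 * ε * k) + 12 * k * ε ^ 2 := by
  classical
  have hk1 : (1 : ℝ) ≤ (k : ℝ) := by exact_mod_cast hk
  have hn0 : 0 < n := by linarith
  have hBn0 : 0 ≤ B / n := by positivity
  have hε4 : ε ≤ 1 / 4 := by nlinarith
  obtain ⟨y, hy⟩ : ∃ y : ℝ, y = ε * k * δ + 4 * k * ε ^ 2 := ⟨_, rfl⟩
  have hy0 : 0 ≤ y := by rw [hy]; positivity
  have hy1 : y ≤ 1 / 2 := by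
    rw [hy]
    have h1 : ε * k * δ ≤ 1 / 4 * (1 / 2) := mul_le_mul hεk hδ hδ0 (by norm_num)
    have h2 : 4 * (k : ℝ) * ε ^ 2 = 4 * (ε * k) * ε := by ring
    have h3 : 4 * (ε * k) * ε ≤ 1 * (1 / 4) := mul_le_mul (by linarith) hε4 hε.le (by norm_num)
    rw [h2]; linarith
  -- estimate of each product
  have key : ∀ e ∈ Finset.univ.filter (fun e : E => v ∈ inc e), w e ≠ 0 →
      Real.exp (-y) ≤ gc inc ε e * ∏ f ∈ gH inc w v e, (1 - ε * w f) ∧
      gc inc ε e * ∏ f ∈ gH inc w v e, (1 - ε * w f) ≤ Real.exp y := by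
    intro e hve he0
    rw [Finset.mem_filter] at hve
    have hcard : (((inc e).erase v).card : ℝ) = ((inc e).card : ℝ) - 1 := by
      rw [Finset.card_erase_of_mem hve.2, Nat.cast_sub (Finset.card_pos.mpr ⟨v, hve.2⟩)]
      simp
    obtain ⟨m, hm⟩ : ∃ m : ℝ, m = ((inc e).card : ℝ) - 1 := ⟨_, rfl⟩
    have hm0 : 0 ≤ m := by
      have : 1 ≤ (inc e).card := Finset.card_pos.mpr ⟨v, hve.2⟩
      have : (1 : ℝ) ≤ ((inc e).card : ℝ) := by exact_mod_cast this
      linarith
    have hmk : m ≤ k := by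
      have : ((inc e).card : ℝ) ≤ k := by exact_mod_cast (hw.size e he0).2.1
      linarith
    have hup := g1_up hw hδ0 v e
    rw [hcard, ← hm] at hup
    have hlow := g1_low hw v e he0 m (by rw [hcard, hm])
    set σ : ℝ := ∑ f ∈ gH inc w v e, w f with hσ
    have hσε : ∑ f ∈ gH inc w v e, ε * w f = ε * σ := by rw [hσ, Finset.mul_sum]
    have hσ0 : 0 ≤ σ := Finset.sum_nonneg fun f _ => hw.nonneg f
    have hwn : ∀ f : E, 0 ≤ ε * w f ∧ ε * w f ≤ ε * (3 / 2) := fun f =>
      ⟨mul_nonneg hε.le (hw.nonneg f), mul_le_mul_of_nonneg_left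
        ((gw_le hw hδ0 f).trans (by linarith)) hε.le⟩
    have hgc : gc inc ε e = Real.exp (ε * m) := by unfold gc; rw [hm]
    rw [hgc]
    constructor
    · have h1 := nb1_le_prod (gH inc w v e) (fun f => ε * w f) (ε * (3 / 2))
        (fun f _ => ⟨(hwn f).1, (hwn f).2.trans (by linarith)⟩) (fun f _ => (hwn f).2)
      rw [hσε] at h1
      refine le_trans ?_ (mul_le_mul_of_nonneg_left h1 (Real.exp_pos _).le)
      rw [← Real.exp_add]
      apply Real.exp_le_exp.mpr
      have h2 : ε * σ ≤ ε * (m * (1 + δ)) := mul_le_mul_of_nonneg_left hup hε.le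
      have h3 : m * (1 + δ) ≤ k * (3 / 2) := mul_le_mul hmk (by linarith) (by linarith) (by linarith)
      have h4 : ε * σ ≤ ε * (k * (3 / 2)) := h2.trans (mul_le_mul_of_nonneg_left h3 hε.le)
      have h5 : ε * (3 / 2) * (ε * σ) ≤ ε * (3 / 2) * (ε * (k * (3 / 2))) :=
        mul_le_mul_of_nonneg_left h4 (by positivity)
      have h6 : ε * (m * (1 + δ)) = ε * m + ε * m * δ := by ring
      have h7 : ε * m * δ ≤ ε * k * δ :=
        mul_le_mul_of_nonneg_right (mul_le_mul_of_nonneg_left hmk hε.le) hδ0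
      rw [hy]
      nlinarith [sq_nonneg ε]
    · have h1 := nb1_prod_le (gH inc w v e) (fun f => ε * w f)
        (fun f _ => ⟨(hwn f).1, (hwn f).2.trans (by linarith)⟩)
      rw [hσε] at h1
      refine le_trans (mul_le_mul_of_nonneg_left h1 (Real.exp_pos _).le) ?_
      rw [← Real.exp_add]
      apply Real.exp_le_exp.mpr
      have h2 : ε * (m * (1 - δ) - m ^ 2 * (B / n)) ≤ ε * σ :=
        mul_le_mul_of_nonneg_left hlow hε.le
      have h3 : m ^ 2 * (B / n) ≤ ε := by
        refine le_trans (mul_le_mul_of_nonneg_right (pow_le_pow_left₀ hm0 hmk 2) hBn0) ?_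
        rw [mul_div_assoc] at hBn
        exact hBn
      have h4 : ε * (m ^ 2 * (B / n)) ≤ ε * ε := mul_le_mul_of_nonneg_left h3 hε.le
      have h7 : ε * m * δ ≤ ε * k * δ :=
        mul_le_mul_of_nonneg_right (mul_le_mul_of_nonneg_left hmk hε.le) hδ0
      have h8 : ε * ε ≤ 4 * k * ε ^ 2 := by nlinarith [sq_nonneg ε]
      rw [hy]
      nlinarith
  -- summation
  rw [g1_mean]
  have hW := gw1_alive hw hv
  have hT1 : Real.exp (-y) * gw1 inc w v ≤
      ∑ e ∈ Finset.univ.filter (fun e => v ∈ inc e),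
        gc inc ε e * w e * ∏ f ∈ gH inc w v e, (1 - ε * w f) := by
    unfold gw1
    rw [Finset.mul_sum]
    refine Finset.sum_le_sum fun e he => ?_
    by_cases h : w e = 0
    · rw [h]; simp
    · have := (key e he h).1
      have h0 := hw.nonneg e
      nlinarith [mul_le_mul_of_nonneg_right this h0]
  have hT2 : ∑ e ∈ Finset.univ.filter (fun e => v ∈ inc e),
        gc inc ε e * w e * ∏ f ∈ gH inc w v e, (1 - ε * w f) ≤ Real.exp y * gw1 inc w v := by
    unfold gw1
    rw [Finset.mul_sum]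
    refine Finset.sum_le_sum fun e he => ?_
    by_cases h : w e = 0
    · rw [h]; simp
    · have := (key e he h).2
      have h0 := hw.nonneg e
      nlinarith [mul_le_mul_of_nonneg_right this h0]
  have he1 : 1 - y ≤ Real.exp (-y) := by
    have := Real.add_one_le_exp (-y); linarith
  have he2 : Real.exp y ≤ 1 + 2 * y := by
    have h1 : Real.exp y * Real.exp (-y) = 1 := by rw [← Real.exp_add]; simp
    have h2 : Real.exp y * (1 - y) ≤ 1 := by
      have h2' := mul_le_mul_of_nonneg_left he1 (Real.exp_pos y).le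
      rwa [h1] at h2'
    have h3 := Real.exp_pos y
    nlinarith
  have hW0 : 0 ≤ gw1 inc w v := gw1_nonneg hw v
  have hyt : 3 * y = 3 * (ε * k * δ) + 12 * k * ε ^ 2 := by rw [hy]; ring
  rw [abs_le]
  constructor
  · have h1 : (1 - y) * (1 - δ) ≤ Real.exp (-y) * gw1 inc w v :=
      mul_le_mul he1 hW.1 (by linarith) (Real.exp_pos _).le
    nlinarith
  · have h1 : Real.exp y * gw1 inc w v ≤ (1 + 2 * y) * (1 + δ) :=
      mul_le_mul he2 hW.2 hW0 (by linarith)
    nlinarith

end Pool.Agent.GNib
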