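import Pool.Agent.Lib_helper96.GNib.GDef

/-!
# General weighted nibble: concentration of the surviving weight
-/

set_option autoImplicit false
set_option linter.unusedSectionVars false

namespace Pool.Agent.GNib

open Finset Pool.Agent.Des

section G2

variable {V E : Type} [Fintype V] [DecidableEq V] [Fintype E] [DecidableEq E]
variable {inc : E → Finset V} {k : ℕ} {n : ℝ} {A : Finset V} {w : E → ℝ} {δ B : ℝ}

/-- Lipschitz constant of the surviving weight at `v` with respect to the cell `f` -/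
noncomputable def g2c (inc : E → Finset V) (w : E → ℝ) (v : V) (f : E) : ℝ :=
  2 * ∑ g ∈ (inc f).erase v, gw2 inc w v g

theorem g2c_nonneg (hw : GNW inc k n A w δ B) (v : V) (f : E) : 0 ≤ g2c inc w v f :=
  mul_nonneg (by norm_num) (Finset.sum_nonneg fun g _ => gw2_nonneg hw _ _)

theorem g2_lip (hw : GNW inc k n A w δ B) (c : E → ℝ)
    (hc : ∀ e, w e ≠ 0 → 0 ≤ c e ∧ c e ≤ 2) (v : V) (f : E) (ω : Finset E) :
    |gfe inc w c v (insert f ω) - gfe inc w c v ω| ≤ g2c inc w v f := by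
  classical
  have h0 := g2c_nonneg hw v f
  have hcw0 : ∀ e, 0 ≤ c e * w e := by
    intro e
    by_cases h : w e = 0
    · rw [h, mul_zero]
    · exact mul_nonneg (hc e h).1 (hw.nonneg e)
  have hcw2 : ∀ e, c e * w e ≤ 2 * w e := by
    intro e
    by_cases h : w e = 0
    · rw [h, mul_zero, mul_zero]
    · exact mul_le_mul_of_nonneg_right (hc e h).2 (hw.nonneg e)
  set P : Finset E → E → Prop := fun ω e =>
    ∀ f ∈ ω, v ∉ inc f → Disjoint (inc f) ((inc e).erase v) with hP
  have hdiff : gfe inc w c v ω - gfe inc w c v (insert f ω) =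
      ∑ e ∈ Finset.univ.filter (fun e => v ∈ inc e),
      c e * w e * ((if P ω e then 1 else 0) - (if P (insert f ω) e then 1 else 0)) := by
    unfold gfe
    rw [← Finset.sum_sub_distrib]
    refine Finset.sum_congr rfl fun e _ => ?_
    rw [mul_sub]
  have hmono : ∀ e, P (insert f ω) e → P ω e := fun e h f' hf' =>
    h f' (Finset.mem_insert_of_mem hf')
  have hle : gfe inc w c v ω - gfe inc w c v (insert f ω) ≤ g2c inc w v f := by
    rw [hdiff]
    have h2 : g2c inc w v f = ∑ e ∈ (Finset.univ : Finset E),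
        ∑ g ∈ ((inc f).erase v).filter (fun g => v ∈ inc e ∧ g ∈ inc e), 2 * w e := by
      unfold g2c gw2
      rw [Finset.mul_sum]
      simp_rw [Finset.mul_sum, Finset.sum_filter]
      exact Finset.sum_comm
    rw [h2, Finset.sum_filter]
    refine Finset.sum_le_sum fun e _ => ?_
    have hnn : 0 ≤ ∑ g ∈ ((inc f).erase v).filter (fun g => v ∈ inc e ∧ g ∈ inc e), 2 * w e :=
      Finset.sum_nonneg fun _ _ => mul_nonneg (by norm_num) (hw.nonneg e)
    split_ifs with he h1 h3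
    · simpa using hnn
    · -- `P ω e` but not `P (insert f ω) e`
      have h4 : v ∉ inc f ∧ ¬ Disjoint (inc f) ((inc e).erase v) := by
        by_contra hcon
        apply h3
        intro f' hf' hv'
        rcases Finset.mem_insert.mp hf' with h | h
        · subst h
          by_contra hd
          exact hcon ⟨hv', hd⟩
        · exact h1 f' h hv'
      obtain ⟨g, hg, hg'⟩ := Finset.not_disjoint_iff.mp h4.2
      rw [Finset.mem_erase] at hg'
      have hmem : g ∈ ((inc f).erase v).filter (fun g => v ∈ inc e ∧ g ∈ inc e) := by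
        rw [Finset.mem_filter, Finset.mem_erase]
        exact ⟨⟨hg'.1, hg⟩, he, hg'.2⟩
      have := Finset.single_le_sum (f := fun _ => 2 * w e)
        (fun _ _ => mul_nonneg (by norm_num) (hw.nonneg e)) hmem
      have h5 := hcw2 e
      simp only [sub_zero, mul_one]
      exact h5.trans this
    · exact absurd (hmono e ‹_›) h1
    · simpa using hnn
    · exact hnn
  have hge : 0 ≤ gfe inc w c v ω - gfe inc w c v (insert f ω) := by
    rw [hdiff]
    refine Finset.sum_nonneg fun e _ => mul_nonneg (hcw0 e) ?_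
    by_cases h1 : P ω e
    · rw [if_pos h1]; split_ifs <;> norm_num
    · rw [if_neg h1, if_neg (fun h => h1 (hmono e h))]; norm_num
  rw [abs_le]
  constructor <;> linarith

theorem g2_c_le (hw : GNW inc k n A w δ B) (hB : 0 ≤ B / n) (v : V) {f : E} (hf : w f ≠ 0) :
    g2c inc w v f ≤ 2 * (k : ℝ) * (B / n) := by
  unfold g2c
  have h1 : ∑ g ∈ (inc f).erase v, gw2 inc w v g ≤ (k : ℝ) * (B / n) := by
    calc ∑ g ∈ (inc f).erase v, gw2 inc w v g
        ≤ ∑ g ∈ (inc f).erase v, B / n := by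
          refine Finset.sum_le_sum fun g hg => ?_
          rw [Finset.mem_erase] at hg
          exact hw.pair v g hg.1.symm
      _ = (((inc f).erase v).card : ℝ) * (B / n) := by rw [Finset.sum_const, nsmul_eq_mul]
      _ ≤ (k : ℝ) * (B / n) := by
          refine mul_le_mul_of_nonneg_right ?_ hB
          exact_mod_cast (Finset.card_le_card (Finset.erase_subset _ _)).trans (hw.size f hf).2.1
  linarith

theorem g2_sum (hw : GNW inc k n A w δ B) (hδ0 : 0 ≤ δ) (hδ : δ ≤ 1 / 2) (v : V) :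
    ∑ f ∈ gsp w, w f * g2c inc w v f ≤ 5 * (k : ℝ) := by
  classical
  have h1 : ∑ f ∈ gsp w, w f * g2c inc w v f ≤
      ∑ g ∈ Finset.univ.erase v, 2 * (gw1 inc w g * gw2 inc w v g) := by
    have h2 : ∀ g, gw1 inc w g = ∑ f ∈ gsp w, if g ∈ inc f then w f else 0 := by
      intro g
      rw [gw1_sp, Finset.sum_filter]
    have h3 : ∑ g ∈ Finset.univ.erase v, 2 * (gw1 inc w g * gw2 inc w v g) =
        ∑ f ∈ gsp w, ∑ g ∈ Finset.univ.erase v,
          2 * ((if g ∈ inc f then w f else 0) * gw2 inc w v g) := by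
      rw [Finset.sum_comm]
      refine Finset.sum_congr rfl fun g _ => ?_
      rw [h2 g, Finset.sum_mul, Finset.mul_sum]
    rw [h3]
    refine Finset.sum_le_sum fun f _ => ?_
    unfold g2c
    have h4 : ∑ g ∈ Finset.univ.erase v, 2 * ((if g ∈ inc f then w f else 0) * gw2 inc w v g) =
        w f * (2 * ∑ g ∈ (inc f).erase v, gw2 inc w v g) := by
      have h5 : (inc f).erase v = (Finset.univ.erase v).filter (fun g => g ∈ inc f) := by
        ext g; simp only [Finset.mem_erase, Finset.mem_filter, Finset.mem_univ, and_true]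
      rw [h5, Finset.mul_sum, Finset.mul_sum, Finset.sum_filter]
      refine Finset.sum_congr rfl fun g _ => ?_
      split_ifs
      · ring
      · ring
    rw [h4]
  refine h1.trans ?_
  have h6 : ∑ g ∈ Finset.univ.erase v, 2 * (gw1 inc w g * gw2 inc w v g) ≤
      ∑ g ∈ Finset.univ.erase v, 3 * gw2 inc w v g := by
    refine Finset.sum_le_sum fun g _ => ?_
    have h7 := gw1_le hw hδ0 g
    have h8 := gw2_nonneg hw v g
    have h9 := mul_le_mul_of_nonneg_right h7 h8
    nlinarith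
  refine h6.trans ?_
  rw [← Finset.mul_sum]
  have h10 := gw2_sum hw hδ0 v
  have hk0 : (0 : ℝ) ≤ k := Nat.cast_nonneg _
  nlinarith

end G2

theorem gnib_conc {V E : Type} [Fintype V] [DecidableEq V] [Fintype E] [DecidableEq E]
    (inc : E → Finset V) (k : ℕ) (n : ℝ) (A : Finset V) (w : E → ℝ) (δ B ε : ℝ)
    (hn : 1 ≤ n) (hw : GNW inc k n A w δ B)
    (hδ0 : 0 ≤ δ) (hδ : δ ≤ 1 / 2) (hB : 0 ≤ B) (hε : 0 < ε) (hε1 : ε ≤ 1 / 2)
    (hn2 : 2 * (k : ℝ) * B ≤ Real.sqrt n) (c : E → ℝ)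
    (hc : ∀ e, w e ≠ 0 → 0 ≤ c e ∧ c e ≤ 2) (v : V) (t : ℝ) :
    bP (gsp w) (fun e => ε * w e)
        (fun ω => t ≤ |gfe inc w c v ω - bE (gsp w) (fun e => ε * w e) (gfe inc w c v)|) ≤
      2 * Real.exp (10 * (k : ℝ) ^ 2 * B - t * Real.sqrt n) := by
  classical
  have hk0 : (0 : ℝ) ≤ k := Nat.cast_nonneg _
  have hn0 : 0 < n := by linarith
  set s : ℝ := Real.sqrt n with hs
  have hs0 : 0 < s := Real.sqrt_pos.mpr hn0
  have hs2 : s * s = n := Real.mul_self_sqrt hn0.le
  have hBn0 : 0 ≤ B / n := by positivity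
  have hp := gp hw hδ0 hδ hε.le hε1
  have hc1 : ∀ f ∈ gsp w, g2c inc w v f ≤ 2 * (k : ℝ) * (B / n) := fun f hf =>
    g2_c_le hw hBn0 v (Finset.mem_filter.mp hf).2
  have hsb : s * (2 * (k : ℝ) * (B / n)) ≤ 1 := by
    have : s * (2 * (k : ℝ) * (B / n)) = (2 * (k : ℝ) * B) / s := by
      rw [← hs2]; field_simp
    rw [this, div_le_one hs0]
    exact hn2
  have h := bernstein_tail (gsp w) (fun e => ε * w e) hp (gfe inc w c v) (g2c inc w v)
    (fun f _ => g2c_nonneg hw v f) (fun f _ ω _ _ => g2_lip hw c hc v f ω) s hs0.le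
    (fun f hf => (mul_le_mul_of_nonneg_left (hc1 f hf) hs0.le).trans hsb) t
  refine h.trans (mul_le_mul_of_nonneg_left (Real.exp_le_exp.mpr ?_) (by norm_num))
  have h1 : ∑ f ∈ gsp w, ε * w f * g2c inc w v f ^ 2 ≤ 2 * (k : ℝ) * (B / n) * (5 * k) := by
    calc ∑ f ∈ gsp w, ε * w f * g2c inc w v f ^ 2
        ≤ ∑ f ∈ gsp w, 2 * (k : ℝ) * (B / n) * (w f * g2c inc w v f) := by
          refine Finset.sum_le_sum fun f hf => ?_
          have h0 := hw.nonneg f
          have h2 := hc1 f hf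
          have h3 := g2c_nonneg hw v f
          have h4 : ε * w f * g2c inc w v f ^ 2 ≤ w f * g2c inc w v f ^ 2 := by
            have : 0 ≤ w f * g2c inc w v f ^ 2 := by positivity
            nlinarith
          have h5 : w f * g2c inc w v f ^ 2 = g2c inc w v f * (w f * g2c inc w v f) := by ring
          rw [h5] at h4
          exact h4.trans (mul_le_mul_of_nonneg_right h2 (by positivity))
      _ = 2 * (k : ℝ) * (B / n) * ∑ f ∈ gsp w, w f * g2c inc w v f := by rw [Finset.mul_sum]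
      _ ≤ 2 * (k : ℝ) * (B / n) * (5 * k) :=
          mul_le_mul_of_nonneg_left (g2_sum hw hδ0 hδ v) (by positivity)
  have h2 : s ^ 2 * ∑ f ∈ gsp w, ε * w f * g2c inc w v f ^ 2 ≤ 10 * (k : ℝ) ^ 2 * B := by
    calc s ^ 2 * ∑ f ∈ gsp w, ε * w f * g2c inc w v f ^ 2
        ≤ s ^ 2 * (2 * (k : ℝ) * (B / n) * (5 * k)) :=
          mul_le_mul_of_nonneg_left h1 (by positivity)
      _ = 10 * (k : ℝ) ^ 2 * B := by
          rw [pow_two, hs2]; field_simp; ring
  nlinarith

section G2b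

variable {V E : Type} [Fintype V] [DecidableEq V] [Fintype E] [DecidableEq E]
variable {inc : E → Finset V} {k : ℕ} {n : ℝ} {A : Finset V} {w : E → ℝ} {δ B : ℝ}

theorem g2b_mean (hw : GNW inc k n A w δ B) (hδ0 : 0 ≤ δ) (hδ : δ ≤ 1 / 2) {ε : ℝ}
    (hε : 0 < ε) (hε1 : ε ≤ 1 / 2) (S : Finset V) :
    bE (gsp w) (fun e => ε * w e) (fun ω => ((gunc inc A S ω).card : ℝ)) ≤
      (1 - ε / 4) * ((A ∩ S).card : ℝ) := by
  classical
  have hp := gp hw hδ0 hδ hε.le hε1
  have h1 : ∀ ω ⊆ gsp w, ((gunc inc A S ω).card : ℝ) = ∑ g ∈ A ∩ S,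
      if ∅ ⊆ ω ∧ Disjoint ((gsp w).filter (fun f => g ∈ inc f)) ω then (1 : ℝ) else 0 := by
    intro ω hω
    unfold gunc
    rw [Finset.card_filter]
    push_cast
    refine Finset.sum_congr rfl fun g _ => ?_
    have hiff : (∀ f ∈ ω, g ∉ inc f) ↔
        (∅ ⊆ ω ∧ Disjoint ((gsp w).filter (fun f => g ∈ inc f)) ω) := by
      constructor
      · intro h
        refine ⟨Finset.empty_subset _, ?_⟩
        rw [Finset.disjoint_left]
        intro f hf hfω
        exact h f hfω (Finset.mem_filter.mp hf).2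
      · rintro ⟨-, h⟩ f hf hgf
        exact Finset.disjoint_left.mp h (Finset.mem_filter.mpr ⟨hω hf, hgf⟩) hf
    simp only [hiff]
  rw [bE_congr h1, bE_sum]
  have h2 : ∀ g ∈ A ∩ S,
      bE (gsp w) (fun e => ε * w e) (fun ω =>
        if ∅ ⊆ ω ∧ Disjoint ((gsp w).filter (fun f => g ∈ inc f)) ω then (1 : ℝ) else 0) ≤
      1 - ε / 4 := by
    intro g hg
    rw [Finset.mem_inter] at hg
    rw [bE_subset_disj _ _ ∅ _ (Finset.empty_subset _) (Finset.filter_subset _ _)
      (Finset.disjoint_empty_left _)]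
    rw [Finset.prod_empty, one_mul]
    refine (nb1_prod_le _ _ fun f hf => hp f (Finset.mem_filter.mp hf).1).trans ?_
    rw [← Finset.mul_sum, ← gw1_sp]
    have h3 := (gw1_alive hw hg.1).1
    have h4 : ε / 2 ≤ ε * gw1 inc w g := by nlinarith
    have h5 : Real.exp (-(ε * gw1 inc w g)) ≤ Real.exp (-(ε / 2)) :=
      Real.exp_le_exp.mpr (by linarith)
    refine h5.trans ?_
    have h6 : Real.exp (-(ε / 2)) * (1 + ε / 2) ≤ 1 := by
      have h7 := Real.add_one_le_exp (ε / 2)
      have h8 : Real.exp (-(ε / 2)) * Real.exp (ε / 2) = 1 := by rw [← Real.exp_add]; simp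
      have h9 := mul_le_mul_of_nonneg_left h7 (Real.exp_pos (-(ε / 2))).le
      rw [h8] at h9
      linarith
    have h10 := Real.exp_pos (-(ε / 2))
    by_contra hcon
    push Not at hcon
    have h11 : (1 - ε / 4) * (1 + ε / 2) < Real.exp (-(ε / 2)) * (1 + ε / 2) :=
      mul_lt_mul_of_pos_right hcon (by linarith)
    nlinarith
  refine (Finset.sum_le_sum h2).trans ?_
  rw [Finset.sum_const, nsmul_eq_mul, mul_comm]

theorem g2b_lip (S : Finset V) (f : E) (ω : Finset E) :
    |((gunc inc A S (insert f ω)).card : ℝ) - ((gunc inc A S ω).card : ℝ)| ≤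
      ((A ∩ S).filter (fun v => v ∈ inc f)).card := by
  classical
  have hsub : gunc inc A S (insert f ω) ⊆ gunc inc A S ω := by
    intro g hg
    unfold gunc at hg ⊢
    rw [Finset.mem_filter] at hg ⊢
    exact ⟨hg.1, fun f' hf' => hg.2 f' (Finset.mem_insert_of_mem hf')⟩
  have hcard : (gunc inc A S ω).card ≤ (gunc inc A S (insert f ω)).card +
      ((A ∩ S).filter (fun v => v ∈ inc f)).card := by
    refine (Finset.card_le_card ?_).trans (Finset.card_union_le _ _)
    intro g hg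
    unfold gunc at hg
    rw [Finset.mem_filter] at hg
    rw [Finset.mem_union]
    by_cases hgK : g ∈ inc f
    · exact Or.inr (Finset.mem_filter.mpr ⟨hg.1, hgK⟩)
    · refine Or.inl ?_
      unfold gunc
      refine Finset.mem_filter.mpr ⟨hg.1, fun f' hf' => ?_⟩
      rcases Finset.mem_insert.mp hf' with h | h
      · subst h; exact hgK
      · exact hg.2 f' h
  have h3 : ((gunc inc A S ω).card : ℝ) ≤ ((gunc inc A S (insert f ω)).card : ℝ) +
      (((A ∩ S).filter (fun v => v ∈ inc f)).card : ℝ) := by exact_mod_cast hcard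
  have h4 : ((gunc inc A S (insert f ω)).card : ℝ) ≤ ((gunc inc A S ω).card : ℝ) := by
    exact_mod_cast Finset.card_le_card hsub
  rw [abs_le]
  constructor <;> linarith

end G2b

theorem gnib_codeg {V E : Type} [Fintype V] [DecidableEq V] [Fintype E] [DecidableEq E]
    (inc : E → Finset V) (k : ℕ) (n : ℝ) (A : Finset V) (w : E → ℝ) (δ B ε : ℝ)
    (hn : 1 ≤ n) (hw : GNW inc k n A w δ B)
    (hδ0 : 0 ≤ δ) (hδ : δ ≤ 1 / 2) (hε : 0 < ε) (hε1 : ε ≤ 1 / 2)
    (hn2 : (k : ℝ) ^ 2 ≤ n) (S : Finset V) (hS : (S.card : ℝ) ≤ n) :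
    bP (gsp w) (fun e => ε * w e)
        (fun ω => (1 - ε / 4) * ((A ∩ S).card : ℝ) + n ^ ((2 : ℝ) / 3) ≤
          ((gunc inc A S ω).card : ℝ)) ≤
      2 * Real.exp (2 * (k : ℝ) ^ 2 - n ^ ((1 : ℝ) / 6)) := by
  classical
  have hn0 : 0 < n := by linarith
  set s : ℝ := Real.sqrt n with hs
  have hs0 : 0 < s := Real.sqrt_pos.mpr hn0
  have hs2 : s * s = n := Real.mul_self_sqrt hn0.le
  have hp := gp hw hδ0 hδ hε.le hε1
  have hmean := g2b_mean hw hδ0 hδ hε hε1 S
  have hk0 : (0 : ℝ) ≤ k := by positivity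
  have hks : (k : ℝ) ≤ s := by
    rw [hs]; exact Real.le_sqrt_of_sq_le hn2
  obtain ⟨d, hd⟩ : ∃ d : E → ℝ, d = fun f => (((A ∩ S).filter (fun v => v ∈ inc f)).card : ℝ) :=
    ⟨_, rfl⟩
  have hd0 : ∀ f, 0 ≤ d f := fun f => by rw [hd]; positivity
  have hdk : ∀ f, w f ≠ 0 → d f ≤ k := by
    intro f hf
    have h1 : (A ∩ S).filter (fun v => v ∈ inc f) ⊆ inc f := fun v hv => (Finset.mem_filter.mp hv).2
    have h2 : ((((A ∩ S).filter (fun v => v ∈ inc f)).card : ℕ) : ℝ) ≤ (k : ℝ) := by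
      exact_mod_cast (Finset.card_le_card h1).trans (hw.size f hf).2.1
    rw [hd]
    exact h2
  have h := bernstein_tail (gsp w) (fun e => ε * w e) hp (fun ω => ((gunc inc A S ω).card : ℝ))
    d (fun f _ => hd0 f)
    (fun f _ ω _ _ => by rw [hd]; exact g2b_lip S f ω) s⁻¹ (by positivity)
    (fun f hf => by
      rw [inv_mul_le_iff₀ hs0, mul_one]
      exact (hdk f (Finset.mem_filter.mp hf).2).trans hks) (n ^ ((2 : ℝ) / 3))
  refine (bP_mono hp fun ω _ hω => ?_).trans (h.trans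
    (mul_le_mul_of_nonneg_left (Real.exp_le_exp.mpr ?_) (by norm_num)))
  · refine le_trans ?_ (le_abs_self _)
    linarith
  · have h1 : ∑ f ∈ gsp w, ε * w f * d f ^ 2 ≤ k * (ε * ∑ v ∈ A ∩ S, gw1 inc w v) := by
      have h2 : ∑ v ∈ A ∩ S, gw1 inc w v = ∑ f ∈ gsp w, w f * d f := by
        simp_rw [gw1_sp, Finset.sum_filter]
        rw [Finset.sum_comm]
        refine Finset.sum_congr rfl fun f _ => ?_
        rw [← Finset.sum_filter, Finset.sum_const, nsmul_eq_mul, mul_comm, hd]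
      rw [h2, Finset.mul_sum, Finset.mul_sum]
      refine Finset.sum_le_sum fun f hf => ?_
      have h3 := hdk f (Finset.mem_filter.mp hf).2
      have h4 : 0 ≤ ε * w f * d f := mul_nonneg (mul_nonneg hε.le (hw.nonneg f)) (hd0 f)
      nlinarith
    have h3 : ε * ∑ v ∈ A ∩ S, gw1 inc w v ≤ n := by
      have h4 : ∑ v ∈ A ∩ S, gw1 inc w v ≤ (3 / 2) * n := by
        calc ∑ v ∈ A ∩ S, gw1 inc w v ≤ ∑ v ∈ A ∩ S, (3 / 2 : ℝ) :=
              Finset.sum_le_sum fun v _ => (gw1_le hw hδ0 v).trans (by linarith)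
          _ = ((A ∩ S).card : ℝ) * (3 / 2) := by rw [Finset.sum_const, nsmul_eq_mul]
          _ ≤ n * (3 / 2) := by
              refine mul_le_mul_of_nonneg_right (le_trans ?_ hS) (by norm_num)
              exact_mod_cast Finset.card_le_card Finset.inter_subset_right
          _ = (3 / 2) * n := by ring
      have h5 : 0 ≤ ∑ v ∈ A ∩ S, gw1 inc w v := Finset.sum_nonneg fun v _ => gw1_nonneg hw v
      nlinarith
    have h6 : s⁻¹ ^ 2 * ∑ f ∈ gsp w, ε * w f * d f ^ 2 ≤ 2 * (k : ℝ) ^ 2 := by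
      calc s⁻¹ ^ 2 * ∑ f ∈ gsp w, ε * w f * d f ^ 2
          ≤ s⁻¹ ^ 2 * ((k : ℝ) * n) := by
            refine mul_le_mul_of_nonneg_left (h1.trans ?_) (by positivity)
            exact mul_le_mul_of_nonneg_left h3 hk0
        _ = (k : ℝ) := by
            rw [← hs2]; field_simp
        _ ≤ 2 * (k : ℝ) ^ 2 := by
            rcases Nat.eq_zero_or_pos k with h | h
            · rw [h]; simp
            · have : (1 : ℝ) ≤ k := by exact_mod_cast h
              nlinarith
    have h7 : s⁻¹ * n ^ ((2 : ℝ) / 3) = n ^ ((1 : ℝ) / 6) := by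
      rw [hs, Real.sqrt_eq_rpow, ← Real.rpow_neg hn0.le, ← Real.rpow_add hn0]
      norm_num
    rw [h7]
    linarith

end Pool.Agent.GNib
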