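import Pool.Agent.Lib_helper96.GNib.GDef

/-!
# General weighted nibble: maximal degree and waste
-/

set_option autoImplicit false
set_option linter.unusedSectionVars false

namespace Pool.Agent.GNib

open Finset Pool.Agent.Des

theorem gnib_max {V E : Type} [Fintype V] [DecidableEq V] [Fintype E] [DecidableEq E]
    (inc : E → Finset V) (k : ℕ) (n : ℝ) (A : Finset V) (w : E → ℝ) (δ B ε : ℝ)
    (hw : GNW inc k n A w δ B)
    (hδ0 : 0 ≤ δ) (hδ : δ ≤ 1 / 2) (hε : 0 < ε) (hε1 : ε ≤ 1 / 2) (Λ : ℕ) :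
    bP (gsp w) (fun e => ε * w e)
        (fun ω => ∃ g ∈ (Finset.univ : Finset V), Λ ≤ (ω.filter (fun f => g ∈ inc f)).card) ≤
      (Fintype.card V : ℝ) * (Real.exp 2 * ε ^ Λ) := by
  classical
  have hp := gp hw hδ0 hδ hε.le hε1
  refine (bP_exists_le hp Finset.univ
    (fun g ω => Λ ≤ (ω.filter (fun f => g ∈ inc f)).card)).trans ?_
  have h1 : ∀ g ∈ (Finset.univ : Finset V), bP (gsp w) (fun e => ε * w e)
      (fun ω => Λ ≤ (ω.filter (fun f => g ∈ inc f)).card) ≤ Real.exp 2 * ε ^ Λ := by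
    intro g _
    have hx : 0 ≤ Real.log (1 / ε) := by
      apply Real.log_nonneg
      rw [le_div_iff₀ hε]; linarith
    have h2 := card_tail (gsp w) (fun e => ε * w e) hp
      ((gsp w).filter (fun f => g ∈ inc f)) (Finset.filter_subset _ _) (Real.log (1 / ε))
      (Λ : ℝ) hx
    refine (bP_mono hp (fun ω hω hA => ?_)).trans (h2.trans ?_)
    · have h3 : ω.filter (fun f => g ∈ inc f) ⊆ ω ∩ (gsp w).filter (fun f => g ∈ inc f) := by
        intro f hf
        rw [Finset.mem_filter] at hf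
        rw [Finset.mem_inter, Finset.mem_filter]
        exact ⟨hf.1, hω hf.1, hf.2⟩
      have h4 := hA.trans (Finset.card_le_card h3)
      exact_mod_cast h4
    · rw [Real.exp_log (by positivity : (0 : ℝ) < 1 / ε), ← Finset.mul_sum, ← gw1_sp]
      have h5 : (1 / ε - 1) * (ε * gw1 inc w g) ≤ 2 := by
        have h6 : (1 / ε - 1) * (ε * gw1 inc w g) = (1 - ε) * gw1 inc w g := by
          field_simp
        rw [h6]
        have h7 := gw1_le hw hδ0 g
        have h8 := gw1_nonneg hw g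
        nlinarith
      have h9 : Real.exp 2 * ε ^ Λ = Real.exp (2 - Real.log (1 / ε) * Λ) := by
        rw [sub_eq_add_neg, Real.exp_add]
        congr 1
        rw [one_div, Real.log_inv, neg_mul, neg_neg, mul_comm, Real.exp_nat_mul,
          Real.exp_log hε]
      rw [h9]
      exact Real.exp_le_exp.mpr (by linarith)
  refine (Finset.sum_le_sum h1).trans ?_
  rw [Finset.sum_const, nsmul_eq_mul, Finset.card_univ]

section G3

variable {V E : Type} [Fintype V] [DecidableEq V] [Fintype E] [DecidableEq E]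
variable {inc : E → Finset V} {k : ℕ} {n : ℝ} {A : Finset V} {w : E → ℝ} {δ B : ℝ}

open Classical in
/-- the pairs of conflicting cells -/
noncomputable def g3P (inc : E → Finset V) (w : E → ℝ) (S : Finset V) : Finset (E × E) :=
  (gsp w ×ˢ gsp w).filter (fun z => z.1 ≠ z.2 ∧ ¬ Disjoint (inc z.1) S ∧
    ¬ Disjoint (inc z.1) (inc z.2))

/-- covering bound for sums -/
theorem g3_cover (hw : GNW inc k n A w δ B) (hδ0 : 0 ≤ δ) (G : Finset V) :
    ∑ f ∈ (gsp w).filter (fun f => ¬ Disjoint (inc f) G), w f ≤ (G.card : ℝ) * (1 + δ) := by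
  classical
  have h1 : ∑ f ∈ (gsp w).filter (fun f => ¬ Disjoint (inc f) G), w f ≤
      ∑ g ∈ G, gw1 inc w g := by
    have h2 : ∑ g ∈ G, gw1 inc w g =
        ∑ f ∈ (Finset.univ : Finset E), ∑ g ∈ G.filter (fun g => g ∈ inc f), w f := by
      unfold gw1
      simp_rw [Finset.sum_filter]
      exact Finset.sum_comm
    rw [h2]
    refine le_trans ?_ (Finset.sum_le_sum_of_subset_of_nonneg
      (Finset.subset_univ ((gsp w).filter (fun f => ¬ Disjoint (inc f) G)))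
      (fun f _ _ => Finset.sum_nonneg fun _ _ => hw.nonneg f))
    refine Finset.sum_le_sum fun f hf => ?_
    rw [Finset.mem_filter, Finset.not_disjoint_iff] at hf
    obtain ⟨_, g, hg, hg'⟩ := hf
    exact Finset.single_le_sum (f := fun _ => w f) (fun _ _ => hw.nonneg f)
      (Finset.mem_filter.mpr ⟨hg', hg⟩)
  refine h1.trans ?_
  calc ∑ g ∈ G, gw1 inc w g ≤ ∑ g ∈ G, (1 + δ) := Finset.sum_le_sum fun g _ => gw1_le hw hδ0 g
    _ = _ := by rw [Finset.sum_const, nsmul_eq_mul]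

theorem g3_sum (hw : GNW inc k n A w δ B) (hδ0 : 0 ≤ δ) (hδ : δ ≤ 1 / 2) {ε : ℝ} (hε : 0 < ε)
    (S : Finset V) (hS : (S.card : ℝ) ≤ n) :
    2 * ∑ z ∈ g3P inc w S, (ε * w z.1) * (ε * w z.2) ≤ 8 * (k : ℝ) * ε ^ 2 * n := by
  classical
  have hk0 : (0 : ℝ) ≤ k := Nat.cast_nonneg _
  have hn0 : 0 ≤ n := le_trans (Nat.cast_nonneg _) hS
  have hf : ∀ f, 0 ≤ w f := hw.nonneg
  have inner : ∀ e ∈ gsp w, ∑ f ∈ (gsp w).filter (fun f => ¬ Disjoint (inc f) (inc e)), w f ≤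
      (k : ℝ) * (3 / 2) := by
    intro e he
    refine (g3_cover hw hδ0 (inc e)).trans ?_
    have h1 : ((inc e).card : ℝ) ≤ k := by
      exact_mod_cast (hw.size e (Finset.mem_filter.mp he).2).2.1
    exact mul_le_mul h1 (by linarith) (by linarith) hk0
  have outer : ∑ f ∈ (gsp w).filter (fun f => ¬ Disjoint (inc f) S), w f ≤ n * (3 / 2) := by
    refine (g3_cover hw hδ0 S).trans ?_
    exact mul_le_mul hS (by linarith) (by linarith) hn0
  have h1 : ∑ z ∈ g3P inc w S, (ε * w z.1) * (ε * w z.2) ≤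
      ∑ e ∈ (gsp w).filter (fun e => ¬ Disjoint (inc e) S), (ε * w e) *
        (ε * ∑ f ∈ (gsp w).filter (fun f => ¬ Disjoint (inc f) (inc e)), w f) := by
    unfold g3P
    rw [Finset.sum_filter, Finset.sum_product, Finset.sum_filter]
    refine Finset.sum_le_sum fun e _ => ?_
    by_cases hSe : Disjoint (inc e) S
    · rw [if_neg (fun h => h hSe)]
      refine le_of_eq (Finset.sum_eq_zero fun f _ => ?_)
      rw [if_neg (fun h => h.2.1 hSe)]
    · rw [if_pos hSe, Finset.mul_sum, Finset.mul_sum, Finset.sum_filter]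
      refine Finset.sum_le_sum fun f _ => ?_
      by_cases hd : Disjoint (inc e) (inc f)
      · rw [if_neg (fun h => h.2.2 hd), if_neg (fun h => h hd.symm)]
      · rw [if_pos (fun h => hd h.symm)]
        split_ifs
        · exact le_rfl
        · exact mul_nonneg (mul_nonneg hε.le (hf e)) (mul_nonneg hε.le (hf f))
  have h2 : ∑ e ∈ (gsp w).filter (fun e => ¬ Disjoint (inc e) S), (ε * w e) *
        (ε * ∑ f ∈ (gsp w).filter (fun f => ¬ Disjoint (inc f) (inc e)), w f) ≤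
      ∑ e ∈ (gsp w).filter (fun e => ¬ Disjoint (inc e) S), (ε * w e) *
        (ε * ((k : ℝ) * (3 / 2))) :=
    Finset.sum_le_sum fun e he => mul_le_mul_of_nonneg_left
      (mul_le_mul_of_nonneg_left (inner e (Finset.mem_filter.mp he).1) hε.le)
      (mul_nonneg hε.le (hf e))
  rw [← Finset.sum_mul, ← Finset.mul_sum] at h2
  have h3 := mul_le_mul_of_nonneg_right (mul_le_mul_of_nonneg_left outer hε.le)
    (show 0 ≤ ε * ((k : ℝ) * (3 / 2)) by positivity)
  have h4 : ε * (n * (3 / 2)) * (ε * ((k : ℝ) * (3 / 2))) = 9 / 4 * ((k : ℝ) * ε ^ 2 * n) := by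
    ring
  have h5 : 0 ≤ (k : ℝ) * ε ^ 2 * n := by positivity
  nlinarith

/-- the deterministic part -/
theorem g3_det (hw : GNW inc k n A w δ B) (Λ : ℕ) (S : Finset V) (ω : Finset E)
    (hω : ω ⊆ gsp w) (hΛ : ∀ g : V, (ω.filter (fun f => g ∈ inc f)).card ≤ Λ) :
    ∃ ℱ ⊆ g3P inc w S, (∀ z ∈ ℱ, z.1 ∈ ω ∧ z.2 ∈ ω) ∧
      (∀ z ∈ ℱ, ∀ z' ∈ ℱ, z ≠ z' → Disjoint ({z.1, z.2} : Finset E) {z'.1, z'.2}) ∧
      (gwst inc A S ω).card ≤ 2 * k * (1 + k * Λ) * ℱ.card := by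
  classical
  have mC : ∀ f ∈ ω, (inc f).card ≤ k := fun f hf =>
    (hw.size f (Finset.mem_filter.mp (hω hf)).2).2.1
  obtain ⟨𝒢, h𝒢⟩ : ∃ 𝒢 : Finset (Finset (E × E)), 𝒢 =
      (g3P inc w S).powerset.filter (fun ℱ => (∀ z ∈ ℱ, z.1 ∈ ω ∧ z.2 ∈ ω) ∧
      (∀ z ∈ ℱ, ∀ z' ∈ ℱ, z ≠ z' → Disjoint ({z.1, z.2} : Finset E) {z'.1, z'.2})) := ⟨_, rfl⟩
  have m𝒢 : ∀ ℱ, ℱ ∈ 𝒢 ↔ ℱ ⊆ g3P inc w S ∧ (∀ z ∈ ℱ, z.1 ∈ ω ∧ z.2 ∈ ω) ∧
      (∀ z ∈ ℱ, ∀ z' ∈ ℱ, z ≠ z' → Disjoint ({z.1, z.2} : Finset E) {z'.1, z'.2}) := by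
    intro ℱ
    rw [h𝒢, Finset.mem_filter, Finset.mem_powerset]
  have hne : 𝒢.Nonempty := ⟨∅, (m𝒢 ∅).mpr (by simp)⟩
  obtain ⟨ℱ, hℱ, hmax⟩ := Finset.exists_max_image 𝒢 (fun ℱ => ℱ.card) hne
  obtain ⟨f1, f2, f3⟩ := (m𝒢 ℱ).mp hℱ
  refine ⟨ℱ, f1, f2, f3, ?_⟩
  obtain ⟨U, hU⟩ : ∃ U : Finset E, U = ℱ.biUnion (fun z => {z.1, z.2}) := ⟨_, rfl⟩
  have hUcard : U.card ≤ ℱ.card * 2 := by
    rw [hU]
    exact Finset.card_biUnion_le_card_mul _ _ _ (fun z _ => Finset.card_le_two)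
  have hUω : ∀ f ∈ U, f ∈ ω := by
    intro f hf
    rw [hU, Finset.mem_biUnion] at hf
    obtain ⟨z, hz, hfz⟩ := hf
    rw [Finset.mem_insert, Finset.mem_singleton] at hfz
    rcases hfz with h | h
    · rw [h]; exact (f2 z hz).1
    · rw [h]; exact (f2 z hz).2
  obtain ⟨C, hC⟩ : ∃ C : Finset E, C = ω.filter (fun f => ¬ Disjoint (inc f) S ∧
      ∃ f' ∈ ω, f' ≠ f ∧ ¬ Disjoint (inc f) (inc f')) := ⟨_, rfl⟩
  have hCsub : C ⊆ U ∪ U.biUnion (fun f' => (inc f').biUnion (fun v =>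
      ω.filter (fun f => v ∈ inc f))) := by
    intro f hf
    rw [hC, Finset.mem_filter] at hf
    obtain ⟨hfω, hSf, f', hf'ω, hne', hnd⟩ := hf
    have hzP : (f, f') ∈ g3P inc w S := by
      unfold g3P
      rw [Finset.mem_filter, Finset.mem_product]
      exact ⟨⟨hω hfω, hω hf'ω⟩, Ne.symm hne', hSf, hnd⟩
    have hUor : f ∈ U ∨ f' ∈ U := by
      by_contra hcon
      push Not at hcon
      have hznot : (f, f') ∉ ℱ := by
        intro hz
        apply hcon.1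
        rw [hU, Finset.mem_biUnion]
        exact ⟨(f, f'), hz, Finset.mem_insert_self _ _⟩
      have hdis : ∀ z ∈ ℱ, Disjoint ({f, f'} : Finset E) {z.1, z.2} := by
        intro z hz
        rw [Finset.disjoint_left]
        intro L hL hLz
        have hLU : L ∈ U := by
          rw [hU, Finset.mem_biUnion]; exact ⟨z, hz, hLz⟩
        rw [Finset.mem_insert, Finset.mem_singleton] at hL
        rcases hL with h | h
        · exact hcon.1 (h ▸ hLU)
        · exact hcon.2 (h ▸ hLU)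
      have hins : insert (f, f') ℱ ∈ 𝒢 := by
        rw [m𝒢]
        refine ⟨Finset.insert_subset hzP f1, ?_, ?_⟩
        · intro z hz
          rcases Finset.mem_insert.mp hz with h | h
          · rw [h]; exact ⟨hfω, hf'ω⟩
          · exact f2 z h
        · intro z hz z' hz' hzz
          rcases Finset.mem_insert.mp hz with h | h <;>
            rcases Finset.mem_insert.mp hz' with h' | h'
          · exact absurd (h.trans h'.symm) hzz
          · rw [h]; exact hdis z' h'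
          · rw [h']; exact (hdis z h).symm
          · exact f3 z h z' h' hzz
      have := hmax _ hins
      rw [Finset.card_insert_of_notMem hznot] at this
      omega
    rw [Finset.mem_union]
    rcases hUor with h | h
    · exact Or.inl h
    · right
      rw [Finset.not_disjoint_iff] at hnd
      obtain ⟨g, hg1, hg2⟩ := hnd
      rw [Finset.mem_biUnion]
      refine ⟨f', h, ?_⟩
      rw [Finset.mem_biUnion]
      exact ⟨g, hg2, Finset.mem_filter.mpr ⟨hfω, hg1⟩⟩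
  have hCcard : C.card ≤ (1 + k * Λ) * (ℱ.card * 2) := by
    refine (Finset.card_le_card hCsub).trans ((Finset.card_union_le _ _).trans ?_)
    have h2 : (U.biUnion (fun f' => (inc f').biUnion (fun v =>
        ω.filter (fun f => v ∈ inc f)))).card ≤ U.card * (k * Λ) := by
      refine Finset.card_biUnion_le_card_mul _ _ _ (fun f' hf' => ?_)
      refine (Finset.card_biUnion_le_card_mul _ _ Λ (fun v _ => hΛ v)).trans ?_
      exact Nat.mul_le_mul_right _ (mC f' (hUω f' hf'))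
    calc U.card + _ ≤ U.card + U.card * (k * Λ) := Nat.add_le_add_left h2 _
      _ = (1 + k * Λ) * U.card := by ring
      _ ≤ (1 + k * Λ) * (ℱ.card * 2) := Nat.mul_le_mul_left _ hUcard
  have hwst : (gwst inc A S ω).card ≤ C.card * k := by
    unfold gwst
    have hsub : (A ∩ S).filter (fun v => ∃ f ∈ ω, v ∈ inc f ∧
        ∃ f' ∈ ω, f' ≠ f ∧ ¬ Disjoint (inc f) (inc f')) ⊆ C.biUnion (fun f => inc f) := by
      intro g hg
      rw [Finset.mem_filter, Finset.mem_inter] at hg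
      obtain ⟨⟨_, hgS⟩, f, hf, hgf, f', hf', hne', hnd⟩ := hg
      rw [Finset.mem_biUnion]
      refine ⟨f, ?_, hgf⟩
      rw [hC, Finset.mem_filter]
      exact ⟨hf, Finset.not_disjoint_iff.mpr ⟨g, hgf, hgS⟩, f', hf', hne', hnd⟩
    refine (Finset.card_le_card hsub).trans ?_
    refine Finset.card_biUnion_le_card_mul _ _ _ (fun f hf => ?_)
    rw [hC, Finset.mem_filter] at hf
    exact mC f hf.1
  calc (gwst inc A S ω).card ≤ C.card * k := hwst
    _ ≤ (1 + k * Λ) * (ℱ.card * 2) * k := Nat.mul_le_mul_right _ hCcard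
    _ = 2 * k * (1 + k * Λ) * ℱ.card := by ring

end G3

theorem gnib_waste {V E : Type} [Fintype V] [DecidableEq V] [Fintype E] [DecidableEq E]
    (inc : E → Finset V) (k : ℕ) (hk : 1 ≤ k) (n : ℝ) (A : Finset V) (w : E → ℝ) (δ B ε : ℝ)
    (hw : GNW inc k n A w δ B)
    (hδ0 : 0 ≤ δ) (hδ : δ ≤ 1 / 2) (hε : 0 < ε) (hε1 : ε ≤ 1 / 2)
    (Λ : ℕ) (S : Finset V) (hS : (S.card : ℝ) ≤ n) :
    bP (gsp w) (fun e => ε * w e)
        (fun ω => (∀ g : V, (ω.filter (fun f => g ∈ inc f)).card ≤ Λ) ∧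
          2 * (k : ℝ) * (1 + k * Λ) *
            (8 * (k : ℝ) * ε ^ 2 * n + Real.sqrt n + 1) ≤ ((gwst inc A S ω).card : ℝ)) ≤
      Real.exp (- Real.sqrt n) := by
  have hp := gp hw hδ0 hδ hε.le hε1
  have hP : ∀ z ∈ g3P inc w S, z.1 ∈ gsp w ∧ z.2 ∈ gsp w ∧ z.1 ≠ z.2 := by
    intro z hz
    unfold g3P at hz
    rw [Finset.mem_filter, Finset.mem_product] at hz
    exact ⟨hz.1.1, hz.1.2, hz.2.1⟩
  have hpairs := pairs_tail (gsp w) (fun e => ε * w e) hp (g3P inc w S) hP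
    (8 * (k : ℝ) * ε ^ 2 * n + Real.sqrt n)
  have hsum := g3_sum hw hδ0 hδ hε S hS
  have hexp : Real.exp (2 * ∑ z ∈ g3P inc w S, (ε * w z.1) * (ε * w z.2) -
      (8 * (k : ℝ) * ε ^ 2 * n + Real.sqrt n)) ≤ Real.exp (- Real.sqrt n) := by
    refine Real.exp_le_exp.mpr ?_
    linarith
  refine le_trans (bP_mono hp ?_) (hpairs.trans hexp)
  intro ω hω hA
  obtain ⟨hA1, hA2⟩ := hA
  obtain ⟨ℱ, f1, f2, f3, f4⟩ := g3_det hw Λ S ω hω hA1
  refine ⟨ℱ, f1, f2, f3, ?_⟩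
  have f5 : ((gwst inc A S ω).card : ℝ) ≤ 2 * (k : ℝ) * (1 + k * Λ) * (ℱ.card : ℝ) := by
    exact_mod_cast f4
  have hk0 : (0 : ℝ) < k := by exact_mod_cast hk
  have hpos : 0 < 2 * (k : ℝ) * (1 + k * Λ) := by positivity
  have h6 := le_of_mul_le_mul_left (hA2.trans f5) hpos
  linarith

end Pool.Agent.GNib
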