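import Pool.Agent.Lib_helper96.GNib.G1
import Pool.Agent.Lib_helper96.GNib.G2
import Pool.Agent.Lib_helper96.GNib.G3
import Pool.Agent.Lib_helper96.Des.Nib4

/-!
# General weighted nibble: one step with `ε = n^(-1/8)`
-/

set_option autoImplicit false
set_option linter.unusedSectionVars false

namespace Pool.Agent.GNib

open Finset Pool.Agent.Des

/-- surviving weight at a surviving vertex -/
theorem g4_fe {V E : Type} [Fintype V] [DecidableEq V] [Fintype E] [DecidableEq E]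
    (inc : E → Finset V) (k : ℕ) (n : ℝ) (A : Finset V) (w : E → ℝ) (δ B : ℝ)
    (hw : GNW inc k n A w δ B) (ω : Finset E) (A' : Finset V)
    (hA' : ∀ g, g ∈ A' ↔ g ∈ A ∧ ∀ f ∈ ω, g ∉ inc f) (c : E → ℝ) (v : V) (hv : v ∈ A') :
    gw1 inc (fun e => if inc e ⊆ A' then c e * w e else 0) v = gfe inc w c v ω := by
  classical
  unfold gfe gw1
  refine Finset.sum_congr rfl fun e he => ?_
  by_cases hw0 : w e = 0
  · simp [hw0]
  · obtain ⟨_, _, heA⟩ := hw.size e hw0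
    have hvω := (hA' v).mp hv
    have key : inc e ⊆ A' ↔ ∀ f ∈ ω, v ∉ inc f → Disjoint (inc f) ((inc e).erase v) := by
      constructor
      · intro h f hf _
        rw [Finset.disjoint_left]
        intro g hg hg'
        exact ((hA' g).mp (h (Finset.mem_of_mem_erase hg'))).2 f hf hg
      · intro h g hg
        by_cases hgv : g = v
        · rw [hgv]; exact hv
        · rw [hA']
          refine ⟨heA hg, fun f hf hgf => ?_⟩
          have h1 := h f hf (hvω.2 f hf)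
          rw [Finset.disjoint_left] at h1
          exact h1 hgf (Finset.mem_erase.mpr ⟨hgv, hg⟩)
    show (if inc e ⊆ A' then c e * w e else 0) = _
    by_cases h : inc e ⊆ A'
    · rw [if_pos h, if_pos (key.mp h), mul_one]
    · rw [if_neg h, if_neg (fun h' => h (key.mpr h')), mul_zero]

/-- the deterministic part of the step -/
theorem g4_det {V E : Type} [Fintype V] [DecidableEq V] [Fintype E] [DecidableEq E]
    (inc : E → Finset V) (k : ℕ) (n : ℝ) (A : Finset V) (w : E → ℝ) (δ B ε : ℝ)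
    (hw : GNW inc k n A w δ B) (hε : 0 ≤ ε)
    (δ' : ℝ) (ω : Finset E) (hω : ω ⊆ gsp w)
    (h1 : ∀ v ∈ A, |gfe inc w (gc inc ε) v ω - 1| ≤ δ') :
    ∃ (D : Finset E) (A' : Finset V), (∀ f ∈ D, w f ≠ 0 ∧ inc f ⊆ A \ A') ∧
      (∀ f ∈ D, ∀ f' ∈ D, f ≠ f' → Disjoint (inc f) (inc f')) ∧
      A' ⊆ A ∧
      GNW inc k n A' (fun e => if inc e ⊆ A' then gc inc ε e * w e else 0) δ'
        (Real.exp (ε * k) * B) ∧
      (∀ S : Finset V, A' ∩ S = gunc inc A S ω) ∧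
      (∀ S : Finset V, ((A \ A') ∩ S) \ D.biUnion inc ⊆ gwst inc A S ω) := by
  classical
  obtain ⟨A', hA'⟩ : ∃ A' : Finset V, A' = A.filter (fun g => ∀ f ∈ ω, g ∉ inc f) :=
    ⟨_, rfl⟩
  obtain ⟨D, hD⟩ : ∃ D : Finset E, D = ω.filter (fun f => ∀ f' ∈ ω, f' ≠ f →
    Disjoint (inc f) (inc f')) := ⟨_, rfl⟩
  have mA' : ∀ g, g ∈ A' ↔ g ∈ A ∧ ∀ f ∈ ω, g ∉ inc f := by
    intro g; rw [hA', Finset.mem_filter]
  have mD : ∀ f, f ∈ D ↔ f ∈ ω ∧ ∀ f' ∈ ω, f' ≠ f → Disjoint (inc f) (inc f') := by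
    intro f; rw [hD, Finset.mem_filter]
  have mω : ∀ f ∈ ω, w f ≠ 0 := fun f hf => (Finset.mem_filter.mp (hω hf)).2
  have hsub : A' ⊆ A := fun g hg => ((mA' g).mp hg).1
  refine ⟨D, A', ?_, ?_, hsub, ?_, ?_, ?_⟩
  · intro f hf
    have hfω := ((mD f).mp hf).1
    refine ⟨mω f hfω, fun g hg => ?_⟩
    rw [Finset.mem_sdiff]
    exact ⟨(hw.size f (mω f hfω)).2.2 hg, fun h => ((mA' g).mp h).2 f hfω hg⟩
  · intro f hf f' hf' hne
    exact ((mD f).mp hf).2 f' ((mD f').mp hf').1 (Ne.symm hne)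
  · have hgc0 : ∀ e, 0 < gc inc ε e := fun e => Real.exp_pos _
    have hgck : ∀ e, w e ≠ 0 → gc inc ε e ≤ Real.exp (ε * k) := by
      intro e he
      unfold gc
      apply Real.exp_le_exp.mpr
      refine mul_le_mul_of_nonneg_left ?_ hε
      have : ((inc e).card : ℝ) ≤ k := by exact_mod_cast (hw.size e he).2.1
      linarith
    refine ⟨?_, ?_, ?_, ?_⟩
    · intro e
      show 0 ≤ if inc e ⊆ A' then gc inc ε e * w e else 0
      split_ifs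
      · exact mul_nonneg (hgc0 e).le (hw.nonneg e)
      · exact le_rfl
    · intro e he
      simp only [ne_eq, ite_eq_right_iff, Classical.not_imp] at he
      obtain ⟨he1, he2⟩ := he
      have hw0 : w e ≠ 0 := fun h => he2 (by rw [h, mul_zero])
      exact ⟨(hw.size e hw0).1, (hw.size e hw0).2.1, he1⟩
    · intro v hv
      rw [g4_fe inc k n A w δ B hw ω A' mA' (gc inc ε) v hv]
      exact h1 v (hsub hv)
    · intro u v huv
      have h2 := hw.pair u v huv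
      have h3 : gw2 inc (fun e => if inc e ⊆ A' then gc inc ε e * w e else 0) u v ≤
          Real.exp (ε * k) * gw2 inc w u v := by
        unfold gw2
        rw [Finset.mul_sum]
        refine Finset.sum_le_sum fun e _ => ?_
        show (if inc e ⊆ A' then gc inc ε e * w e else 0) ≤ Real.exp (ε * k) * w e
        by_cases hw0 : w e = 0
        · simp [hw0]
        · split_ifs
          · exact mul_le_mul_of_nonneg_right (hgck e hw0) (hw.nonneg e)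
          · exact mul_nonneg (Real.exp_pos _).le (hw.nonneg e)
      refine h3.trans ?_
      rw [mul_div_assoc]
      exact mul_le_mul_of_nonneg_left h2 (Real.exp_pos _).le
  · intro S
    unfold gunc
    ext g
    simp only [Finset.mem_inter, Finset.mem_filter, mA']
    tauto
  · intro S g hg
    rw [Finset.mem_sdiff, Finset.mem_inter, Finset.mem_sdiff, Finset.mem_biUnion] at hg
    obtain ⟨⟨⟨hgA, hgA'⟩, hgS⟩, hgD⟩ := hg
    rw [mA'] at hgA'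
    push Not at hgA'
    obtain ⟨f, hf, hgf⟩ := hgA' hgA
    unfold gwst
    rw [Finset.mem_filter, Finset.mem_inter]
    refine ⟨⟨hgA, hgS⟩, f, hf, hgf, ?_⟩
    by_contra hcon
    push Not at hcon
    exact hgD ⟨f, (mD f).mpr ⟨hf, hcon⟩, hgf⟩

/-- one more largeness condition -/
theorem g4_large (k : ℕ) : ∃ n₁ : ℕ, ∀ n : ℕ, n₁ ≤ n →
    (k : ℝ) ^ 2 * (n : ℝ) ^ ((1 : ℝ) / 10) / n ≤ (n : ℝ) ^ (-(1 : ℝ) / 8) := by
  have h : ∀ᶠ n : ℕ in Filter.atTop, (k : ℝ) ^ 2 ≤ (n : ℝ) ^ ((31 : ℝ) / 40) := by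
    have := (tendsto_rpow_atTop (show (0 : ℝ) < 31 / 40 by norm_num)).comp
      (tendsto_natCast_atTop_atTop (R := ℝ))
    exact this.eventually_ge_atTop _
  have h1 : ∀ᶠ n : ℕ in Filter.atTop, 1 ≤ (n : ℝ) :=
    (tendsto_natCast_atTop_atTop (R := ℝ)).eventually_ge_atTop 1
  obtain ⟨n₁, hn₁⟩ := Filter.eventually_atTop.mp (h.and h1)
  refine ⟨n₁, fun n hn => ?_⟩
  obtain ⟨a1, a2⟩ := hn₁ n hn
  generalize (n : ℝ) = x at *
  have hx0 : 0 < x := by linarith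
  rw [div_le_iff₀ hx0]
  have e1 : x ^ (-(1 : ℝ) / 8) * x = x ^ ((31 : ℝ) / 40) * x ^ ((1 : ℝ) / 10) := by
    conv_lhs => rw [← Real.rpow_one x, ← Real.rpow_mul hx0.le, ← Real.rpow_add hx0]
    rw [← Real.rpow_add hx0]
    norm_num
  rw [e1]
  exact mul_le_mul_of_nonneg_right a1 (by positivity)

theorem gnib_step (k C : ℕ) (hk : 1 ≤ k) : ∃ (K : ℝ) (n₀ : ℕ), 1 ≤ K ∧ ∀ n : ℕ, n₀ ≤ n →
    ∀ (V E : Type) [Fintype V] [DecidableEq V] [Fintype E] [DecidableEq E]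
    (inc : E → Finset V) (𝒮 : Finset (Finset V)), (Fintype.card V : ℝ) ≤ (n : ℝ) ^ C →
    (𝒮.card : ℝ) ≤ (n : ℝ) ^ C → (∀ S ∈ 𝒮, (S.card : ℝ) ≤ n) →
    ∀ (A : Finset V) (w : E → ℝ) (δ B ε : ℝ), ε = (n : ℝ) ^ (-(1 : ℝ) / 8) →
    GNW inc k n A w δ B → 0 ≤ δ → δ ≤ 1 / 2 → 0 ≤ B → B ≤ (n : ℝ) ^ ((1 : ℝ) / 10) →
    ∃ (D : Finset E) (A' : Finset V), (∀ f ∈ D, w f ≠ 0 ∧ inc f ⊆ A \ A') ∧
      (∀ f ∈ D, ∀ f' ∈ D, f ≠ f' → Disjoint (inc f) (inc f')) ∧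
      A' ⊆ A ∧
      GNW inc k n A' (fun e => if inc e ⊆ A' then gc inc ε e * w e else 0)
        (δ * (1 + 3 * ε * k) + K * (n : ℝ) ^ (-(1 : ℝ) / 4)) (Real.exp (ε * k) * B) ∧
      (∀ S ∈ 𝒮, ((A' ∩ S).card : ℝ) ≤
        (1 - ε / 4) * ((A ∩ S).card : ℝ) + (n : ℝ) ^ ((2 : ℝ) / 3)) ∧
      (∀ S ∈ 𝒮, ((((A \ A') ∩ S) \ D.biUnion inc).card : ℝ) ≤ K * (n : ℝ) ^ ((3 : ℝ) / 4)) := by
  have hk1 : (1 : ℝ) ≤ (k : ℝ) := by exact_mod_cast hk
  obtain ⟨Λ, hΛ⟩ : ∃ Λ : ℕ, Λ = 8 * C + 8 := ⟨_, rfl⟩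
  obtain ⟨n₁, hn₁⟩ := nib4_large k C (4 * (k : ℝ)) Λ hΛ
  obtain ⟨n₂, hn₂⟩ := g4_large k
  obtain ⟨K, hK⟩ : ∃ K : ℝ, K = 12 * (k : ℝ) + 1 +
      2 * (k : ℝ) * (1 + k * Λ) * (8 * (k : ℝ) + 2) := ⟨_, rfl⟩
  have hK0 : 0 ≤ 2 * (k : ℝ) * (1 + k * Λ) * (8 * (k : ℝ) + 2) := by positivity
  refine ⟨K, max n₁ n₂, by linarith, ?_⟩
  intro n hn V E _ _ _ _ inc 𝒮 hVC hSC hSn A w δ B ε hε hw hδ0 hδ hB hBn
  obtain ⟨a1, a2, a3, a4, a5, a6, a7⟩ := hn₁ n ((le_max_left _ _).trans hn)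
  have a8 := hn₂ n ((le_max_right _ _).trans hn)
  obtain ⟨x, hx⟩ : ∃ x : ℝ, x = (n : ℝ) := ⟨_, rfl⟩
  rw [← hx] at a1 a2 a3 a4 a5 a6 a7 a8 hVC hSC hSn hε hw hBn ⊢
  have hx0 : (0 : ℝ) < x := by linarith
  rw [← hε] at a2 a3 a7 a8
  have hε0 : 0 < ε := by rw [hε]; positivity
  have hεk : ε * k ≤ 1 / 8 := by nlinarith
  have hBs : 2 * (k : ℝ) * B ≤ Real.sqrt x := by
    have h1 : 2 * (k : ℝ) * B ≤ 4 * k * B := by nlinarith
    exact h1.trans ((mul_le_mul_of_nonneg_left hBn (by positivity)).trans a5)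
  have hBn2 : (k : ℝ) ^ 2 * B / x ≤ ε := by
    refine le_trans ?_ a8
    exact div_le_div_of_nonneg_right (mul_le_mul_of_nonneg_left hBn (by positivity)) hx0.le
  -- probabilities are in `[0,1]`
  have hp := gp hw hδ0 hδ hε0.le a3
  have hexp1 : Real.exp (ε * k) ≤ 2 := by
    have h2 := Real.exp_le_exp.mpr (show ε * k ≤ 1 / 2 by linarith)
    have h3 : Real.exp (1 / 2) ≤ 2 := by
      have h4 : Real.exp (1 / 2) * Real.exp (1 / 2) = Real.exp 1 := by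
        rw [← Real.exp_add]; norm_num
      have h5 := Real.exp_one_lt_d9
      nlinarith [Real.exp_pos (1 / 2 : ℝ)]
    linarith
  have hgc : ∀ e, w e ≠ 0 → 0 ≤ gc inc ε e ∧ gc inc ε e ≤ 2 := by
    intro e he
    refine ⟨(Real.exp_pos _).le, le_trans ?_ hexp1⟩
    unfold gc
    apply Real.exp_le_exp.mpr
    refine mul_le_mul_of_nonneg_left ?_ hε0.le
    have : ((inc e).card : ℝ) ≤ k := by exact_mod_cast (hw.size e he).2.1
    linarith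
  -- bad events
  obtain ⟨A1, hA1⟩ : ∃ A1 : V → Finset E → Prop, A1 = fun v ω =>
      x ^ (-(1 : ℝ) / 4) ≤ |gfe inc w (gc inc ε) v ω -
        bE (gsp w) (fun e => ε * w e) (gfe inc w (gc inc ε) v)| := ⟨_, rfl⟩
  obtain ⟨A2, hA2⟩ : ∃ A2 : Finset V → Finset E → Prop, A2 = fun S ω =>
      (1 - ε / 4) * ((A ∩ S).card : ℝ) + x ^ ((2 : ℝ) / 3) ≤ ((gunc inc A S ω).card : ℝ) :=
    ⟨_, rfl⟩
  obtain ⟨A3, hA3⟩ : ∃ A3 : Finset E → Prop, A3 = fun ω =>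
      ∃ g ∈ (Finset.univ : Finset V), Λ ≤ (ω.filter (fun f => g ∈ inc f)).card := ⟨_, rfl⟩
  obtain ⟨A4, hA4⟩ : ∃ A4 : Finset V → Finset E → Prop, A4 = fun S ω =>
      ((∀ g : V, (ω.filter (fun f => g ∈ inc f)).card ≤ Λ) ∧
          2 * (k : ℝ) * (1 + k * Λ) *
            (8 * (k : ℝ) * ε ^ 2 * x + Real.sqrt x + 1) ≤ ((gwst inc A S ω).card : ℝ)) :=
    ⟨_, rfl⟩
  set P := bP (gsp w) (fun e => ε * w e) with hPdef
  have b1 : ∀ v ∈ (Finset.univ : Finset V), P (A1 v) ≤ 2 * Real.exp (3 * (4 * (k : ℝ)) ^ 2 *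
      x ^ ((1 : ℝ) / 10) - x ^ (-(1 : ℝ) / 4) * Real.sqrt x) := by
    intro v _
    have h := gnib_conc inc k x A w δ B ε a1 hw hδ0 hδ hB hε0 a3 hBs (gc inc ε) hgc v
      (x ^ (-(1 : ℝ) / 4))
    rw [hPdef, hA1]
    refine h.trans ?_
    have h2 : 10 * (k : ℝ) ^ 2 * B ≤ 3 * (4 * (k : ℝ)) ^ 2 * x ^ ((1 : ℝ) / 10) := by
      have h3 : 10 * (k : ℝ) ^ 2 * B ≤ 10 * (k : ℝ) ^ 2 * x ^ ((1 : ℝ) / 10) :=
        mul_le_mul_of_nonneg_left hBn (by positivity)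
      have h4 : 0 ≤ (k : ℝ) ^ 2 * x ^ ((1 : ℝ) / 10) := by positivity
      nlinarith
    have h3 := Real.exp_le_exp.mpr (show 10 * (k : ℝ) ^ 2 * B -
      x ^ (-(1 : ℝ) / 4) * Real.sqrt x ≤
      3 * (4 * (k : ℝ)) ^ 2 * x ^ ((1 : ℝ) / 10) - x ^ (-(1 : ℝ) / 4) * Real.sqrt x by linarith)
    linarith
  have b2 : ∀ S ∈ 𝒮, P (A2 S) ≤ 2 * Real.exp (2 * (k : ℝ) ^ 2 - x ^ ((1 : ℝ) / 6)) := by
    intro S hS
    rw [hPdef, hA2]
    exact gnib_codeg inc k x A w δ B ε a1 hw hδ0 hδ hε0 a3 a6 S (hSn S hS)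
  have b3 : P A3 ≤ x ^ C * (Real.exp 2 * ε ^ Λ) := by
    rw [hPdef, hA3]
    refine (gnib_max inc k x A w δ B ε hw hδ0 hδ hε0 a3 Λ).trans ?_
    exact mul_le_mul_of_nonneg_right hVC (by positivity)
  have b4 : ∀ S ∈ 𝒮, P (A4 S) ≤ Real.exp (- Real.sqrt x) := by
    intro S hS
    rw [hPdef, hA4]
    exact gnib_waste inc k hk x A w δ B ε hw hδ0 hδ hε0 a3 Λ S (hSn S hS)
  have u1 : P (fun ω => ∃ v ∈ (Finset.univ : Finset V), A1 v ω) ≤ x ^ C * (2 * Real.exp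
      (3 * (4 * (k : ℝ)) ^ 2 * x ^ ((1 : ℝ) / 10) - x ^ (-(1 : ℝ) / 4) * Real.sqrt x)) := by
    refine (bP_exists_le hp _ A1).trans ((Finset.sum_le_card_nsmul _ _ _ b1).trans ?_)
    rw [nsmul_eq_mul, Finset.card_univ]
    exact mul_le_mul_of_nonneg_right hVC (by positivity)
  have u2 : P (fun ω => ∃ S ∈ 𝒮, A2 S ω) ≤
      x ^ C * (2 * Real.exp (2 * (k : ℝ) ^ 2 - x ^ ((1 : ℝ) / 6))) := by
    refine (bP_exists_le hp _ A2).trans ((Finset.sum_le_card_nsmul _ _ _ b2).trans ?_)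
    rw [nsmul_eq_mul]
    exact mul_le_mul_of_nonneg_right hSC (by positivity)
  have u4 : P (fun ω => ∃ S ∈ 𝒮, A4 S ω) ≤ x ^ C * Real.exp (- Real.sqrt x) := by
    refine (bP_exists_le hp _ A4).trans ((Finset.sum_le_card_nsmul _ _ _ b4).trans ?_)
    rw [nsmul_eq_mul]
    exact mul_le_mul_of_nonneg_right hSC (by positivity)
  have tot : P (fun ω => (∃ v ∈ (Finset.univ : Finset V), A1 v ω) ∨
      ((∃ S ∈ 𝒮, A2 S ω) ∨ (A3 ω ∨ ∃ S ∈ 𝒮, A4 S ω))) < 1 := by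
    have v1 := bP_or_le hp (fun ω => ∃ v ∈ (Finset.univ : Finset V), A1 v ω) (fun ω =>
      ((∃ S ∈ 𝒮, A2 S ω) ∨ (A3 ω ∨ ∃ S ∈ 𝒮, A4 S ω)))
    have v2 := bP_or_le hp (fun ω => (∃ S ∈ 𝒮, A2 S ω)) (fun ω => (A3 ω ∨ ∃ S ∈ 𝒮, A4 S ω))
    have v3 := bP_or_le hp A3 (fun ω => ∃ S ∈ 𝒮, A4 S ω)
    rw [← hPdef] at v1 v2 v3
    linarith
  obtain ⟨ω, hω, hnot⟩ := exists_not_of_bP_lt hp tot
  push Not at hnot
  obtain ⟨w1, w2, w3, w4⟩ := hnot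
  have hε2 : ε ^ 2 = x ^ (-(1 : ℝ) / 4) := by
    rw [hε, ← Real.rpow_natCast, ← Real.rpow_mul hx0.le]
    norm_num
  have h6 : 0 < x ^ (-(1 : ℝ) / 4) := by positivity
  have hδ' : ∀ v ∈ A, |gfe inc w (gc inc ε) v ω - 1| ≤
      δ * (1 + 3 * ε * k) + K * x ^ (-(1 : ℝ) / 4) := by
    intro v hv
    have h1 := w1 v (Finset.mem_univ v)
    rw [hA1] at h1
    push Not at h1
    have h2 := gnib_mean inc k x A w δ B ε hk a1 hw hδ0 hδ hB hε0 (by linarith) hBn2 v hv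
    set m := bE (gsp w) (fun e => ε * w e) (gfe inc w (gc inc ε) v) with hm
    have h3 : gfe inc w (gc inc ε) v ω - 1 = (m - 1) + (gfe inc w (gc inc ε) v ω - m) := by ring
    rw [h3]
    refine (abs_add_le _ _).trans ?_
    rw [hε2] at h2
    have h7 : K * x ^ (-(1 : ℝ) / 4) = 12 * k * x ^ (-(1 : ℝ) / 4) + x ^ (-(1 : ℝ) / 4) +
        2 * (k : ℝ) * (1 + k * Λ) * (8 * (k : ℝ) + 2) * x ^ (-(1 : ℝ) / 4) := by rw [hK]; ring
    have h8 : 0 ≤ 2 * (k : ℝ) * (1 + k * Λ) * (8 * (k : ℝ) + 2) * x ^ (-(1 : ℝ) / 4) :=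
      mul_nonneg hK0 h6.le
    linarith
  obtain ⟨D, A', d1, d2, d3, d4, d5, d6⟩ := g4_det inc k x A w δ B ε hw hε0.le _ ω hω hδ'
  refine ⟨D, A', d1, d2, d3, d4, ?_, ?_⟩
  · intro S hS
    have h1 := w2 S hS
    rw [hA2] at h1
    push Not at h1
    rw [d5 S]
    exact h1.le
  · intro S hS
    have h1 := w4 S hS
    rw [hA3] at w3
    push Not at w3
    rw [hA4] at h1
    have h2 := mt (fun h => (⟨fun g => (w3 g (Finset.mem_univ g)).le, h⟩ :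
      (∀ g : V, (ω.filter (fun f => g ∈ inc f)).card ≤ Λ) ∧
          2 * (k : ℝ) * (1 + k * Λ) *
            (8 * (k : ℝ) * ε ^ 2 * x + Real.sqrt x + 1) ≤ ((gwst inc A S ω).card : ℝ))) h1
    push Not at h2
    have h3 : ((((A \ A') ∩ S) \ D.biUnion inc).card : ℝ) ≤ ((gwst inc A S ω).card : ℝ) := by
      exact_mod_cast Finset.card_le_card (d6 S)
    have h4 : ε ^ 2 * x = x ^ ((3 : ℝ) / 4) := by
      rw [hε2]
      conv_lhs => rw [← Real.rpow_one x, ← Real.rpow_mul hx0.le, ← Real.rpow_add hx0]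
      norm_num
    have h5 : Real.sqrt x ≤ x ^ ((3 : ℝ) / 4) := by
      rw [Real.sqrt_eq_rpow]
      exact Real.rpow_le_rpow_of_exponent_le a1 (by norm_num)
    have h6 : (1 : ℝ) ≤ x ^ ((3 : ℝ) / 4) := Real.one_le_rpow a1 (by norm_num)
    have h7 : 8 * (k : ℝ) * ε ^ 2 * x + Real.sqrt x + 1 ≤
        (8 * (k : ℝ) + 2) * x ^ ((3 : ℝ) / 4) := by
      rw [mul_assoc (8 * (k : ℝ)), h4]
      linarith
    have h8 : 2 * (k : ℝ) * (1 + k * Λ) * (8 * (k : ℝ) * ε ^ 2 * x + Real.sqrt x + 1) ≤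
        2 * (k : ℝ) * (1 + k * Λ) * ((8 * (k : ℝ) + 2) * x ^ ((3 : ℝ) / 4)) :=
      mul_le_mul_of_nonneg_left h7 (by positivity)
    have h9 : 0 ≤ (12 * (k : ℝ) + 1) * x ^ ((3 : ℝ) / 4) := by positivity
    have h10 : K * x ^ ((3 : ℝ) / 4) = (12 * (k : ℝ) + 1) * x ^ ((3 : ℝ) / 4) +
        2 * (k : ℝ) * (1 + k * Λ) * ((8 * (k : ℝ) + 2) * x ^ ((3 : ℝ) / 4)) := by
      rw [hK]; ring
    linarith

end Pool.Agent.GNib
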