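import Pool.Agent.Lib_helper96.GNib.G4
import Pool.Agent.Lib_helper96.Des.Nib5

/-!
# General weighted nibble: iteration

`T = ⌈4 κ n^(1/8) log n⌉` steps with `κ = 1 / (200 k)`.
-/

set_option autoImplicit false
set_option linter.unusedSectionVars false

namespace Pool.Agent.GNib

open Finset Pool.Agent.Des

/-- iteration of the step -/
theorem g5_iter (k C : ℕ) (K : ℝ) (n₀ : ℕ) (hK : 1 ≤ K)
    (hstep : ∀ n : ℕ, n₀ ≤ n →
    ∀ (V E : Type) [Fintype V] [DecidableEq V] [Fintype E] [DecidableEq E]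
    (inc : E → Finset V) (𝒮 : Finset (Finset V)), (Fintype.card V : ℝ) ≤ (n : ℝ) ^ C →
    (𝒮.card : ℝ) ≤ (n : ℝ) ^ C → (∀ S ∈ 𝒮, (S.card : ℝ) ≤ n) →
    ∀ (A : Finset V) (w : E → ℝ) (δ B ε : ℝ), ε = (n : ℝ) ^ (-(1 : ℝ) / 8) →
    GNW inc k n A w δ B → 0 ≤ δ → δ ≤ 1 / 2 → 0 ≤ B → B ≤ (n : ℝ) ^ ((1 : ℝ) / 10) →
    ∃ (D : Finset E) (A' : Finset V), (∀ f ∈ D, w f ≠ 0 ∧ inc f ⊆ A \ A') ∧
      (∀ f ∈ D, ∀ f' ∈ D, f ≠ f' → Disjoint (inc f) (inc f')) ∧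
      A' ⊆ A ∧
      GNW inc k n A' (fun e => if inc e ⊆ A' then gc inc ε e * w e else 0)
        (δ * (1 + 3 * ε * k) + K * (n : ℝ) ^ (-(1 : ℝ) / 4)) (Real.exp (ε * k) * B) ∧
      (∀ S ∈ 𝒮, ((A' ∩ S).card : ℝ) ≤
        (1 - ε / 4) * ((A ∩ S).card : ℝ) + (n : ℝ) ^ ((2 : ℝ) / 3)) ∧
      (∀ S ∈ 𝒮, ((((A \ A') ∩ S) \ D.biUnion inc).card : ℝ) ≤ K * (n : ℝ) ^ ((3 : ℝ) / 4)))
    (n : ℕ) (hn : n₀ ≤ n) (V E : Type) [Fintype V] [DecidableEq V] [Fintype E] [DecidableEq E]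
    (inc : E → Finset V) (𝒮 : Finset (Finset V)) (hVC : (Fintype.card V : ℝ) ≤ (n : ℝ) ^ C)
    (hSC : (𝒮.card : ℝ) ≤ (n : ℝ) ^ C) (hSn : ∀ S ∈ 𝒮, (S.card : ℝ) ≤ n)
    (ε α β γ : ℝ)
    (hε : ε = (n : ℝ) ^ (-(1 : ℝ) / 8)) (hε0 : 0 ≤ ε) (hε4 : ε ≤ 4)
    (hα : α = 1 + 3 * ε * k)
    (hβ : β = K * (n : ℝ) ^ (-(1 : ℝ) / 4))
    (hγ : γ = Real.exp (ε * k)) (T : ℕ) :
    ∀ (A : Finset V) (w : E → ℝ) (δ B : ℝ), GNW inc k n A w δ B → 0 ≤ δ → 0 ≤ B →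
    (δ + T * β) * α ^ T ≤ 1 / 2 → B * γ ^ T ≤ (n : ℝ) ^ ((1 : ℝ) / 10) →
    ∃ (D : Finset E) (A' : Finset V), (∀ f ∈ D, w f ≠ 0 ∧ inc f ⊆ A \ A') ∧
      (∀ f ∈ D, ∀ f' ∈ D, f ≠ f' → Disjoint (inc f) (inc f')) ∧
      A' ⊆ A ∧
      (∀ S ∈ 𝒮, ((A' ∩ S).card : ℝ) ≤
        (1 - ε / 4) ^ T * ((A ∩ S).card : ℝ) + T * (n : ℝ) ^ ((2 : ℝ) / 3)) ∧
      (∀ S ∈ 𝒮, ((((A \ A') ∩ S) \ D.biUnion inc).card : ℝ) ≤
          T * (K * (n : ℝ) ^ ((3 : ℝ) / 4))) := by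
  have hn0 : (0 : ℝ) ≤ (n : ℝ) := Nat.cast_nonneg _
  have hα1 : 1 ≤ α := by
    rw [hα]
    have : 0 ≤ 3 * ε * (k : ℝ) := by positivity
    linarith
  have hβ0 : 0 ≤ β := by
    rw [hβ]; positivity
  have hγ1 : 1 ≤ γ := by
    rw [hγ]
    exact Real.one_le_exp (mul_nonneg hε0 (Nat.cast_nonneg _))
  induction T with
  | zero =>
    intro A w δ B _ _ _ _ _
    refine ⟨∅, A, by simp, by simp, Finset.Subset.refl _, ?_, ?_⟩
    · intro S _; simp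
    · intro S _; simp
  | succ T ih =>
    intro A w δ B hw hδ hB hδT hBT
    have hα0 : 0 ≤ α := by linarith
    have hγ0 : 0 ≤ γ := by linarith
    have hαT : 1 ≤ α ^ (T + 1) := one_le_pow₀ hα1
    have hγT : 1 ≤ γ ^ (T + 1) := one_le_pow₀ hγ1
    have hδ2 : δ ≤ 1 / 2 := by
      have h1 : δ * 1 ≤ (δ + ((T + 1 : ℕ) : ℝ) * β) * α ^ (T + 1) := by
        have h0 : 0 ≤ ((T + 1 : ℕ) : ℝ) * β := by positivity
        exact mul_le_mul (by linarith) hαT (by norm_num) (by linarith)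
      linarith
    have hB2 : B ≤ (n : ℝ) ^ ((1 : ℝ) / 10) := by
      have h1 : B * 1 ≤ B * γ ^ (T + 1) := mul_le_mul_of_nonneg_left hγT hB
      linarith
    obtain ⟨D₁, A₁, a1, a2, a3, a4, a5, a6⟩ :=
      hstep n hn V E inc 𝒮 hVC hSC hSn A w δ B ε hε hw hδ hδ2 hB hB2
    rw [← hα, ← hβ, ← hγ] at a4
    have hδ' : 0 ≤ δ * α + β := by positivity
    have hB' : 0 ≤ γ * B := mul_nonneg hγ0 hB
    have hδT' : (δ * α + β + T * β) * α ^ T ≤ 1 / 2 := by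
      refine le_trans ?_ hδT
      rw [pow_succ, ← mul_assoc]
      push_cast
      have h1 : (δ * α + β + T * β) ≤ (δ + (T + 1) * β) * α := by
        have : (T + 1) * β * 1 ≤ (T + 1) * β * α :=
          mul_le_mul_of_nonneg_left hα1 (by positivity)
        nlinarith
      calc (δ * α + β + T * β) * α ^ T ≤ (δ + (T + 1) * β) * α * α ^ T :=
            mul_le_mul_of_nonneg_right h1 (by positivity)
        _ = (δ + (T + 1) * β) * α ^ T * α := by ring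
    have hBT' : γ * B * γ ^ T ≤ (n : ℝ) ^ ((1 : ℝ) / 10) := by
      refine le_trans (le_of_eq ?_) hBT
      rw [pow_succ]; ring
    obtain ⟨D₂, A₂, b1, b2, b3, b5, b6⟩ := ih A₁ _ _ _ a4 hδ' hB' hδT' hBT'
    have b1' : ∀ f ∈ D₂, w f ≠ 0 ∧ inc f ⊆ A₁ \ A₂ := by
      intro f hf
      refine ⟨fun h => (b1 f hf).1 ?_, (b1 f hf).2⟩
      show (if inc f ⊆ A₁ then gc inc ε f * w f else 0) = 0
      rw [h, mul_zero, ite_self]
    refine ⟨D₁ ∪ D₂, A₂, ?_, ?_, b3.trans a3, ?_, ?_⟩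
    · intro f hf
      rcases Finset.mem_union.mp hf with h | h
      · exact ⟨(a1 f h).1, (a1 f h).2.trans (Finset.sdiff_subset_sdiff (Finset.Subset.refl _) b3)⟩
      · exact ⟨(b1' f h).1, (b1' f h).2.trans (Finset.sdiff_subset_sdiff a3 (Finset.Subset.refl _))⟩
    · have key : ∀ f ∈ D₁, ∀ f' ∈ D₂, Disjoint (inc f) (inc f') := by
        intro f h f' h'
        refine Finset.disjoint_of_subset_left (a1 f h).2
          (Finset.disjoint_of_subset_right ((b1' f' h').2.trans Finset.sdiff_subset) ?_)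
        exact Finset.sdiff_disjoint
      intro f hf f' hf' hne
      rcases Finset.mem_union.mp hf with h | h <;> rcases Finset.mem_union.mp hf' with h' | h'
      · exact a2 f h f' h' hne
      · exact key f h f' h'
      · exact (key f' h' f h).symm
      · exact b2 f h f' h' hne
    · intro S hS
      have h1 := a5 S hS
      have h2 := b5 S hS
      have h4 : 0 ≤ 1 - ε / 4 := by linarith
      have h5 : (1 - ε / 4) ^ T ≤ 1 := pow_le_one₀ h4 (by linarith)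
      have h6 : (1 - ε / 4) ^ T * ((A₁ ∩ S).card : ℝ) ≤ (1 - ε / 4) ^ T *
        ((1 - ε / 4) * ((A ∩ S).card : ℝ) + (n : ℝ) ^ ((2 : ℝ) / 3)) :=
        mul_le_mul_of_nonneg_left h1 (by positivity)
      have h7 : (1 - ε / 4) ^ T * (n : ℝ) ^ ((2 : ℝ) / 3) ≤ 1 * (n : ℝ) ^ ((2 : ℝ) / 3) :=
        mul_le_mul_of_nonneg_right h5 (by positivity)
      push_cast
      have h8 : (1 - ε / 4) ^ (T + 1) * ((A ∩ S).card : ℝ) =
        (1 - ε / 4) ^ T * ((1 - ε / 4) * ((A ∩ S).card : ℝ)) := by rw [pow_succ]; ring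
      rw [h8]
      linarith
    · intro S hS
      have h1 := a6 S hS
      have h2 := b6 S hS
      have hsub : ((A \ A₂) ∩ S) \ (D₁ ∪ D₂).biUnion inc ⊆
          (((A \ A₁) ∩ S) \ D₁.biUnion inc) ∪ (((A₁ \ A₂) ∩ S) \ D₂.biUnion inc) := by
        intro v hv
        rw [Finset.mem_sdiff, Finset.mem_inter, Finset.mem_sdiff, Finset.mem_biUnion] at hv
        obtain ⟨⟨⟨hv1, hv2⟩, hvS⟩, hv3⟩ := hv
        rw [Finset.mem_union, Finset.mem_sdiff, Finset.mem_sdiff, Finset.mem_inter,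
          Finset.mem_inter, Finset.mem_sdiff, Finset.mem_sdiff, Finset.mem_biUnion,
          Finset.mem_biUnion]
        by_cases h : v ∈ A₁
        · right
          exact ⟨⟨⟨h, hv2⟩, hvS⟩, fun ⟨f, hf, hf'⟩ => hv3 ⟨f, Finset.mem_union_right _ hf, hf'⟩⟩
        · left
          exact ⟨⟨⟨hv1, h⟩, hvS⟩, fun ⟨f, hf, hf'⟩ => hv3 ⟨f, Finset.mem_union_left _ hf, hf'⟩⟩
      have h3 := (Finset.card_le_card hsub).trans (Finset.card_union_le _ _)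
      have h4 : ((((A \ A₂) ∩ S) \ (D₁ ∪ D₂).biUnion inc).card : ℝ) ≤
          ((((A \ A₁) ∩ S) \ D₁.biUnion inc).card : ℝ) +
          ((((A₁ \ A₂) ∩ S) \ D₂.biUnion inc).card : ℝ) := by exact_mod_cast h3
      push_cast
      linarith

/-- everything which has to be large -/
theorem g5_large (K κ b : ℝ) (hκ : 0 < κ) : ∃ n₁ : ℕ, ∀ n : ℕ, n₁ ≤ n →
    1 ≤ (n : ℝ) ∧ 12 * K * Real.exp (3 * b) ≤ (n : ℝ) ^ (0.055 : ℝ) ∧
    4 * Real.exp (3 * b) ≤ (n : ℝ) ^ (0.04 : ℝ) ∧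
    Real.exp b ≤ (n : ℝ) ^ (0.03 : ℝ) ∧ 2 ≤ (n : ℝ) ^ (κ / 2) ∧
    6 * (1 + K) ≤ (n : ℝ) ^ (0.1 : ℝ) := by
  have h : ∀ (c a : ℝ), 0 < a → ∀ᶠ n : ℕ in Filter.atTop, c ≤ (n : ℝ) ^ a := by
    intro c a ha
    have := (tendsto_rpow_atTop ha).comp (tendsto_natCast_atTop_atTop (R := ℝ))
    exact this.eventually_ge_atTop c
  have h1 : ∀ᶠ n : ℕ in Filter.atTop, 1 ≤ (n : ℝ) :=
    (tendsto_natCast_atTop_atTop (R := ℝ)).eventually_ge_atTop 1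
  have := (h1.and ((h (12 * K * Real.exp (3 * b)) 0.055 (by norm_num)).and
    ((h (4 * Real.exp (3 * b)) 0.04 (by norm_num)).and
    ((h (Real.exp b) 0.03 (by norm_num)).and ((h 2 (κ / 2) (by positivity)).and
    (h (6 * (1 + K)) 0.1 (by norm_num)))))))
  exact Filter.eventually_atTop.mp this

/-- the nibble, all vertices nearly saturated -/
theorem gnib_core (k C : ℕ) (hk : 1 ≤ k) : ∃ κ : ℝ, 0 < κ ∧ κ ≤ 1 / 2 ∧ ∃ n₀ : ℕ,
    ∀ n : ℕ, n₀ ≤ n →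
    ∀ (V E : Type) [Fintype V] [DecidableEq V] [Fintype E] [DecidableEq E]
    (inc : E → Finset V) (𝒮 : Finset (Finset V)), (Fintype.card V : ℝ) ≤ (n : ℝ) ^ C →
    (𝒮.card : ℝ) ≤ (n : ℝ) ^ C → (∀ S ∈ 𝒮, (S.card : ℝ) ≤ n) →
    ∀ (A : Finset V) (w : E → ℝ), GNW inc k n A w ((n : ℝ) ^ (-(1 : ℝ) / 10))
      ((n : ℝ) ^ ((1 : ℝ) / 20)) →
    ∃ D : Finset E, (∀ f ∈ D, w f ≠ 0) ∧
      (∀ f ∈ D, ∀ f' ∈ D, f ≠ f' → Disjoint (inc f) (inc f')) ∧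
      ∀ S ∈ 𝒮, (((A ∩ S) \ D.biUnion inc).card : ℝ) ≤ (n : ℝ) ^ (1 - κ) := by
  obtain ⟨K, n₀, hK, hstep⟩ := gnib_step k C hk
  have hb1 : (1 : ℝ) ≤ (k : ℝ) := by exact_mod_cast hk
  obtain ⟨b, hb⟩ : ∃ b : ℝ, b = (k : ℝ) := ⟨_, rfl⟩
  have hb1 : 1 ≤ b := by rw [hb]; exact_mod_cast hk
  have hb0 : 0 < b := by linarith
  obtain ⟨κ, hκ⟩ : ∃ κ : ℝ, κ = 1 / (200 * b) := ⟨_, rfl⟩
  have hκ0 : 0 < κ := by rw [hκ]; positivity
  have hκb : κ * b = 1 / 200 := by rw [hκ]; field_simp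
  have hκ1 : κ ≤ 1 / 200 := by
    rw [hκ]
    exact one_div_le_one_div_of_le (by norm_num) (by linarith)
  obtain ⟨n₁, hn₁⟩ := g5_large K κ b hκ0
  refine ⟨κ / 2, by positivity, by linarith, max n₀ n₁, ?_⟩
  intro n hn V E _ _ _ _ inc 𝒮 hVC hSC hSn A w hw
  have hV0 : n₀ ≤ n := (le_max_left _ _).trans hn
  have hV1 : n₁ ≤ n := (le_max_right _ _).trans hn
  obtain ⟨l1, l2, l2', l3, l4, l5⟩ := hn₁ _ hV1
  obtain ⟨x, hx⟩ : ∃ x : ℝ, x = (n : ℝ) := ⟨_, rfl⟩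
  have hx0 : 0 < x := by rw [hx]; linarith
  rw [← hx] at l1 l2 l2' l3 l4 l5
  have hlog : 0 ≤ Real.log x := Real.log_nonneg l1
  obtain ⟨T, hT⟩ : ∃ T : ℕ, T = ⌈4 * κ * x ^ ((1 : ℝ) / 8) * Real.log x⌉₊ := ⟨_, rfl⟩
  obtain ⟨t1, t2, t3⟩ := nib5_T x κ l1 hκ0 hκ1 T hT
  obtain ⟨ε, hε⟩ : ∃ ε : ℝ, ε = x ^ (-(1 : ℝ) / 8) := ⟨_, rfl⟩
  rw [← hε] at t2 t3
  have hε0 : 0 < ε := by rw [hε]; positivity
  have hε1 : ε ≤ 1 := by
    rw [hε]; exact Real.rpow_le_one_of_one_le_of_nonpos l1 (by norm_num)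
  -- bound for the deviations
  have hαT : (1 + 3 * ε * b) ^ T ≤ Real.exp (3 * b) * x ^ (0.06 : ℝ) := by
    have h1 : (1 + 3 * ε * b) ^ T ≤ Real.exp (3 * ε * b * T) := by
      calc (1 + 3 * ε * b) ^ T ≤ (Real.exp (3 * ε * b)) ^ T := by
            refine pow_le_pow_left₀ (by positivity) ?_ T
            have := Real.add_one_le_exp (3 * ε * b)
            linarith
        _ = Real.exp (3 * ε * b * T) := by rw [← Real.exp_nat_mul]; ring_nf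
    have h2 : 3 * ε * b * T ≤ 3 * b + Real.log x * 0.06 := by
      have h3 : 3 * b * (ε * T) ≤ 3 * b * (4 * κ * Real.log x + 1) :=
        mul_le_mul_of_nonneg_left t3 (by positivity)
      have h4 : 3 * b * (4 * κ * Real.log x + 1) = 12 * (κ * b) * Real.log x + 3 * b := by ring
      rw [h4, hκb] at h3
      linarith
    refine h1.trans ((Real.exp_le_exp.mpr h2).trans (le_of_eq ?_))
    rw [Real.exp_add, Real.rpow_def_of_pos hx0]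
  have hγT : (Real.exp (ε * b)) ^ T ≤ Real.exp b * x ^ (0.02 : ℝ) := by
    have h1 : (Real.exp (ε * b)) ^ T = Real.exp (b * (ε * T)) := by
      rw [← Real.exp_nat_mul]; ring_nf
    have h2 : b * (ε * T) ≤ b + Real.log x * 0.02 := by
      have h3 : b * (ε * T) ≤ b * (4 * κ * Real.log x + 1) :=
        mul_le_mul_of_nonneg_left t3 (by linarith)
      have h5 : b * (4 * κ * Real.log x + 1) = 4 * (κ * b) * Real.log x + b := by ring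
      rw [h5, hκb] at h3
      linarith
    rw [h1]
    refine (Real.exp_le_exp.mpr h2).trans (le_of_eq ?_)
    rw [Real.exp_add, Real.rpow_def_of_pos hx0]
  have hδT : (x ^ (-(1 : ℝ) / 10) + T * (K * x ^ (-(1 : ℝ) / 4))) * (1 + 3 * ε * b) ^ T ≤
      1 / 2 := by
    have h1 : (T : ℝ) * (K * x ^ (-(1 : ℝ) / 4)) ≤
        3 * x ^ (0.135 : ℝ) * (K * x ^ (-(1 : ℝ) / 4)) :=
      mul_le_mul_of_nonneg_right t1 (by positivity)
    have h2 : (T : ℝ) * (K * x ^ (-(1 : ℝ) / 4)) * (1 + 3 * ε * b) ^ T ≤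
        3 * x ^ (0.135 : ℝ) * (K * x ^ (-(1 : ℝ) / 4)) * (Real.exp (3 * b) * x ^ (0.06 : ℝ)) :=
      mul_le_mul h1 hαT (by positivity) (by positivity)
    have h3 : x ^ (0.135 : ℝ) * x ^ (-(1 : ℝ) / 4) * x ^ (0.06 : ℝ) * x ^ (0.055 : ℝ) = 1 := by
      rw [← Real.rpow_add hx0, ← Real.rpow_add hx0, ← Real.rpow_add hx0]
      norm_num
    have h4 : 0 ≤ x ^ (0.135 : ℝ) * x ^ (-(1 : ℝ) / 4) * x ^ (0.06 : ℝ) := by positivity
    have h5 := mul_le_mul_of_nonneg_left l2 h4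
    rw [h3] at h5
    have h6 : 3 * x ^ (0.135 : ℝ) * (K * x ^ (-(1 : ℝ) / 4)) * (Real.exp (3 * b) * x ^ (0.06 : ℝ)) =
        (1 / 4) * (x ^ (0.135 : ℝ) * x ^ (-(1 : ℝ) / 4) * x ^ (0.06 : ℝ) *
          (12 * K * Real.exp (3 * b))) := by ring
    rw [h6] at h2
    have h7 : x ^ (-(1 : ℝ) / 10) * (1 + 3 * ε * b) ^ T ≤
        x ^ (-(1 : ℝ) / 10) * (Real.exp (3 * b) * x ^ (0.06 : ℝ)) :=
      mul_le_mul_of_nonneg_left hαT (by positivity)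
    have h8 : x ^ (-(1 : ℝ) / 10) * x ^ (0.06 : ℝ) * x ^ (0.04 : ℝ) = 1 := by
      rw [← Real.rpow_add hx0, ← Real.rpow_add hx0]
      norm_num
    have h9 : 0 ≤ x ^ (-(1 : ℝ) / 10) * x ^ (0.06 : ℝ) := by positivity
    have h10 := mul_le_mul_of_nonneg_left l2' h9
    rw [h8] at h10
    have h11 : x ^ (-(1 : ℝ) / 10) * (Real.exp (3 * b) * x ^ (0.06 : ℝ)) =
        (1 / 4) * (x ^ (-(1 : ℝ) / 10) * x ^ (0.06 : ℝ) * (4 * Real.exp (3 * b))) := by ring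
    rw [h11] at h7
    rw [add_mul]
    linarith
  have hBT : x ^ ((1 : ℝ) / 20) * (Real.exp (ε * b)) ^ T ≤ x ^ ((1 : ℝ) / 10) := by
    have h1 : x ^ ((1 : ℝ) / 20) * (Real.exp (ε * b)) ^ T ≤
        x ^ ((1 : ℝ) / 20) * (Real.exp b * x ^ (0.02 : ℝ)) :=
      mul_le_mul_of_nonneg_left hγT (by positivity)
    have h2 : x ^ ((1 : ℝ) / 20) * (Real.exp b * x ^ (0.02 : ℝ)) ≤
        x ^ ((1 : ℝ) / 20) * (x ^ (0.03 : ℝ) * x ^ (0.02 : ℝ)) :=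
      mul_le_mul_of_nonneg_left (mul_le_mul_of_nonneg_right l3 (by positivity)) (by positivity)
    have h3 : x ^ ((1 : ℝ) / 20) * (x ^ (0.03 : ℝ) * x ^ (0.02 : ℝ)) = x ^ ((1 : ℝ) / 10) := by
      rw [← Real.rpow_add hx0, ← Real.rpow_add hx0]; norm_num
    linarith
  have hwx : GNW inc k x A w (x ^ (-(1 : ℝ) / 10)) (x ^ ((1 : ℝ) / 20)) := by rw [hx]; exact hw
  have hit := g5_iter k C K n₀ hK hstep n hV0 V E inc 𝒮 hVC hSC hSn ε _ _ _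
    (by rw [hε, hx]) hε0.le (by linarith) rfl rfl rfl T A w
    ((n : ℝ) ^ (-(1 : ℝ) / 10)) ((n : ℝ) ^ ((1 : ℝ) / 20)) hw (by positivity) (by positivity)
    (by rw [← hx, ← hb]; exact hδT) (by rw [← hx, ← hb]; exact hBT)
  rw [← hx] at hit ⊢
  obtain ⟨D, A', c1, c2, c3, c4, c5⟩ := hit
  refine ⟨D, fun f hf => (c1 f hf).1, c2, ?_⟩
  intro S hS
  have h1 := c4 S hS
  have h2 := c5 S hS
  have hsub : (A ∩ S) \ D.biUnion inc ⊆ (A' ∩ S) ∪ (((A \ A') ∩ S) \ D.biUnion inc) := by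
    intro v hv
    rw [Finset.mem_sdiff, Finset.mem_inter] at hv
    rw [Finset.mem_union, Finset.mem_sdiff, Finset.mem_inter, Finset.mem_inter, Finset.mem_sdiff]
    by_cases h : v ∈ A'
    · exact Or.inl ⟨h, hv.1.2⟩
    · exact Or.inr ⟨⟨⟨hv.1.1, h⟩, hv.1.2⟩, hv.2⟩
  have h3 := (Finset.card_le_card hsub).trans (Finset.card_union_le _ _)
  have h4 : (((A ∩ S) \ D.biUnion inc).card : ℝ) ≤
      ((A' ∩ S).card : ℝ) + ((((A \ A') ∩ S) \ D.biUnion inc).card : ℝ) := by exact_mod_cast h3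
  have h5 : ((A ∩ S).card : ℝ) ≤ x := by
    rw [hx]
    refine le_trans ?_ (hSn S hS)
    exact_mod_cast Finset.card_le_card Finset.inter_subset_right
  have h6 : (1 - ε / 4) ^ T ≤ x ^ (-κ) := by
    have e1 : (1 - ε / 4) ^ T ≤ (Real.exp (-(ε / 4))) ^ T := by
      refine pow_le_pow_left₀ (by linarith) ?_ T
      have := Real.add_one_le_exp (-(ε / 4))
      linarith
    refine e1.trans ?_
    rw [← Real.exp_nat_mul, Real.rpow_def_of_pos hx0]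
    refine Real.exp_le_exp.mpr ?_
    nlinarith
  have h7 : (1 - ε / 4) ^ T * ((A ∩ S).card : ℝ) ≤ x ^ (-κ) * x :=
    mul_le_mul h6 h5 (Nat.cast_nonneg _) (by positivity)
  have h8 : x ^ (-κ) * x = x ^ (1 - κ) := by
    rw [sub_eq_add_neg, add_comm, Real.rpow_add hx0, Real.rpow_one]
  have h9 : (T : ℝ) * x ^ ((2 : ℝ) / 3) ≤ 3 * x ^ (0.885 : ℝ) := by
    calc (T : ℝ) * x ^ ((2 : ℝ) / 3) ≤ 3 * x ^ (0.135 : ℝ) * x ^ (0.75 : ℝ) := by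
          refine mul_le_mul t1 ?_ (by positivity) (by positivity)
          exact Real.rpow_le_rpow_of_exponent_le l1 (by norm_num)
      _ = 3 * x ^ (0.885 : ℝ) := by
          rw [mul_assoc, ← Real.rpow_add hx0]; norm_num
  have h10 : (T : ℝ) * (K * x ^ ((3 : ℝ) / 4)) ≤ 3 * K * x ^ (0.885 : ℝ) := by
    calc (T : ℝ) * (K * x ^ ((3 : ℝ) / 4)) ≤ 3 * x ^ (0.135 : ℝ) * (K * x ^ ((3 : ℝ) / 4)) :=
          mul_le_mul_of_nonneg_right t1 (by positivity)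
      _ = 3 * K * (x ^ (0.135 : ℝ) * x ^ ((3 : ℝ) / 4)) := by ring
      _ = 3 * K * x ^ (0.885 : ℝ) := by rw [← Real.rpow_add hx0]; norm_num
  have h11 : x ^ (1 - κ / 2) = x ^ (1 - κ) * x ^ (κ / 2) := by
    rw [← Real.rpow_add hx0]; congr 1; ring
  have h12 : x ^ (1 - κ) * 2 ≤ x ^ (1 - κ / 2) := by
    rw [h11]; exact mul_le_mul_of_nonneg_left l4 (by positivity)
  have h13 : x ^ (0.885 : ℝ) * (6 * (1 + K)) ≤ x ^ (1 - κ / 2) := by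
    calc x ^ (0.885 : ℝ) * (6 * (1 + K)) ≤ x ^ (0.885 : ℝ) * x ^ (0.1 : ℝ) :=
          mul_le_mul_of_nonneg_left l5 (by positivity)
      _ = x ^ (0.985 : ℝ) := by rw [← Real.rpow_add hx0]; norm_num
      _ ≤ x ^ (1 - κ / 2) := Real.rpow_le_rpow_of_exponent_le l1 (by linarith)
  rw [h8] at h7
  nlinarith [h1, h2, h4, h7, h9, h10, h12, h13]

end Pool.Agent.GNib
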