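import Pool.Agent.Lib_helper96.Des.Pindep
import Pool.Agent.Lib_helper96.Des.Pbern
import Pool.Agent.Lib_helper96.Des.Pcard
import Pool.Agent.Lib_helper96.Des.Ppairs
import Pool.Agent.Lib_helper96.Des.Nib1

/-!
# General weighted nibble: definitions and basic estimates

`V` vertices, `E` cells, `inc e` the vertices of the cell `e`, `w` a weight on the cells.
-/

set_option autoImplicit false
set_option linter.unusedSectionVars false

namespace Pool.Agent.GNib

open Finset Pool.Agent.Des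

section Defs

variable {V E : Type} [Fintype V] [DecidableEq V] [Fintype E] [DecidableEq E]

/-- weight at a vertex -/
noncomputable def gw1 (inc : E → Finset V) (w : E → ℝ) (v : V) : ℝ :=
  ∑ e ∈ Finset.univ.filter (fun e => v ∈ inc e), w e

/-- weight at a pair of vertices -/
noncomputable def gw2 (inc : E → Finset V) (w : E → ℝ) (u v : V) : ℝ :=
  ∑ e ∈ Finset.univ.filter (fun e => u ∈ inc e ∧ v ∈ inc e), w e

/-- the weight `w` is a nearly perfect fractional matching of `A` with cells of size at most `k` -/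
structure GNW (inc : E → Finset V) (k : ℕ) (n : ℝ) (A : Finset V) (w : E → ℝ) (δ B : ℝ) :
    Prop where
  nonneg : ∀ e, 0 ≤ w e
  size : ∀ e, w e ≠ 0 → (inc e).Nonempty ∧ (inc e).card ≤ k ∧ inc e ⊆ A
  sum : ∀ v ∈ A, |gw1 inc w v - 1| ≤ δ
  pair : ∀ u v, u ≠ v → gw2 inc w u v ≤ B / n

/-- cells of nonzero weight -/
noncomputable def gsp (w : E → ℝ) : Finset E := Finset.univ.filter (fun e => w e ≠ 0)

/-- surviving (rescaled) weight at `v` -/
noncomputable def gfe (inc : E → Finset V) (w c : E → ℝ) (v : V) (ω : Finset E) : ℝ :=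
  ∑ e ∈ Finset.univ.filter (fun e => v ∈ inc e), c e * w e *
    (if ∀ f ∈ ω, v ∉ inc f → Disjoint (inc f) ((inc e).erase v) then 1 else 0)

/-- the rescaling factor -/
noncomputable def gc (inc : E → Finset V) (ε : ℝ) (e : E) : ℝ :=
  Real.exp (ε * (((inc e).card : ℝ) - 1))

/-- uncovered alive vertices of `S` -/
def gunc (inc : E → Finset V) (A S : Finset V) (ω : Finset E) : Finset V :=
  (A ∩ S).filter (fun v => ∀ f ∈ ω, v ∉ inc f)

/-- vertices of `S` covered by a conflicting cell -/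
def gwst (inc : E → Finset V) (A S : Finset V) (ω : Finset E) : Finset V :=
  (A ∩ S).filter (fun v => ∃ f ∈ ω, v ∈ inc f ∧ ∃ f' ∈ ω, f' ≠ f ∧ ¬ Disjoint (inc f) (inc f'))

variable {inc : E → Finset V} {k : ℕ} {n : ℝ} {A : Finset V} {w : E → ℝ} {δ B : ℝ}

theorem gw1_nonneg (hw : GNW inc k n A w δ B) (v : V) : 0 ≤ gw1 inc w v :=
  Finset.sum_nonneg fun e _ => hw.nonneg e

theorem gw2_nonneg (hw : GNW inc k n A w δ B) (u v : V) : 0 ≤ gw2 inc w u v :=
  Finset.sum_nonneg fun e _ => hw.nonneg e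

theorem gw2_comm (u v : V) : gw2 inc w u v = gw2 inc w v u := by
  unfold gw2
  refine Finset.sum_congr ?_ fun _ _ => rfl
  ext e; simp only [Finset.mem_filter]; tauto

theorem gw1_alive (hw : GNW inc k n A w δ B) {v : V} (hv : v ∈ A) :
    1 - δ ≤ gw1 inc w v ∧ gw1 inc w v ≤ 1 + δ := by
  have h := abs_le.mp (hw.sum v hv)
  constructor <;> linarith [h.1, h.2]

theorem gw1_dead (hw : GNW inc k n A w δ B) {v : V} (hv : v ∉ A) : gw1 inc w v = 0 := by
  unfold gw1
  refine Finset.sum_eq_zero fun e he => ?_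
  by_contra h
  exact hv ((hw.size e h).2.2 (Finset.mem_filter.mp he).2)

theorem gw1_le (hw : GNW inc k n A w δ B) (hδ : 0 ≤ δ) (v : V) : gw1 inc w v ≤ 1 + δ := by
  by_cases hv : v ∈ A
  · exact (gw1_alive hw hv).2
  · rw [gw1_dead hw hv]; linarith

theorem gw_le (hw : GNW inc k n A w δ B) (hδ : 0 ≤ δ) (e : E) : w e ≤ 1 + δ := by
  by_cases h : w e = 0
  · rw [h]; linarith
  · obtain ⟨v, hv⟩ := (hw.size e h).1
    refine le_trans ?_ (gw1_le hw hδ v)
    exact Finset.single_le_sum (f := w) (fun e _ => hw.nonneg e)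
      (Finset.mem_filter.mpr ⟨Finset.mem_univ e, hv⟩)

/-- sums over all cells are sums over the cells of nonzero weight -/
theorem gsum_sp (w : E → ℝ) (P : E → Prop) [DecidablePred P] (f : E → ℝ) :
    ∑ e ∈ Finset.univ.filter P, w e * f e = ∑ e ∈ (gsp w).filter P, w e * f e := by
  symm
  refine Finset.sum_subset (Finset.filter_subset_filter _ (Finset.subset_univ _)) ?_
  intro e he he'
  by_cases h : w e = 0
  · rw [h, zero_mul]
  · have hs : e ∈ gsp w := by unfold gsp; simp [h]
    exact absurd (Finset.mem_filter.mpr ⟨hs, (Finset.mem_filter.mp he).2⟩) he'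

theorem gw1_sp (inc : E → Finset V) (w : E → ℝ) (v : V) :
    gw1 inc w v = ∑ e ∈ (gsp w).filter (fun e => v ∈ inc e), w e := by
  have := gsum_sp w (fun e => v ∈ inc e) (fun _ => 1)
  simpa [gw1] using this

theorem gw2_sp (inc : E → Finset V) (w : E → ℝ) (u v : V) :
    gw2 inc w u v = ∑ e ∈ (gsp w).filter (fun e => u ∈ inc e ∧ v ∈ inc e), w e := by
  have := gsum_sp w (fun e => u ∈ inc e ∧ v ∈ inc e) (fun _ => 1)
  simpa [gw2] using this

/-- selection probabilities -/
theorem gp (hw : GNW inc k n A w δ B) (hδ0 : 0 ≤ δ) (hδ : δ ≤ 1 / 2) {ε : ℝ} (hε : 0 ≤ ε)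
    (hε1 : ε ≤ 1 / 2) : ∀ e ∈ gsp w, 0 ≤ ε * w e ∧ ε * w e ≤ 1 := by
  intro e _
  have h1 := gw_le hw hδ0 e
  have h0 := hw.nonneg e
  refine ⟨mul_nonneg hε h0, ?_⟩
  nlinarith

/-- the degree sum of the pairs at `v` -/
theorem gw2_sum (hw : GNW inc k n A w δ B) (hδ0 : 0 ≤ δ) (v : V) :
    ∑ g ∈ Finset.univ.erase v, gw2 inc w v g ≤ (k : ℝ) * (1 + δ) := by
  classical
  have h1 : ∑ g ∈ Finset.univ.erase v, gw2 inc w v g =
      ∑ e ∈ Finset.univ.filter (fun e => v ∈ inc e), w e * (((inc e).erase v).card : ℝ) := by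
    unfold gw2
    simp_rw [Finset.sum_filter]
    rw [Finset.sum_comm]
    refine Finset.sum_congr rfl fun e _ => ?_
    split_ifs with h
    · simp only [h, true_and]
      rw [← Finset.sum_filter, Finset.sum_const, nsmul_eq_mul, mul_comm]
      congr 3
      ext g
      simp only [Finset.mem_filter, Finset.mem_erase, Finset.mem_univ, and_true]
    · simp only [h, false_and, if_false, Finset.sum_const_zero]
  rw [h1]
  calc ∑ e ∈ Finset.univ.filter (fun e => v ∈ inc e), w e * (((inc e).erase v).card : ℝ)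
      ≤ ∑ e ∈ Finset.univ.filter (fun e => v ∈ inc e), w e * (k : ℝ) := by
        refine Finset.sum_le_sum fun e _ => ?_
        by_cases h : w e = 0
        · rw [h]; simp
        · refine mul_le_mul_of_nonneg_left ?_ (hw.nonneg e)
          exact_mod_cast (Finset.card_le_card (Finset.erase_subset _ _)).trans (hw.size e h).2.1
    _ = gw1 inc w v * k := by rw [← Finset.sum_mul]; rfl
    _ ≤ (1 + δ) * k := mul_le_mul_of_nonneg_right (gw1_le hw hδ0 v) (Nat.cast_nonneg _)
    _ = _ := mul_comm _ _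

end Defs

end Pool.Agent.GNib
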